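import Pool.Agent.P.MP_6d14ae_al.T.Core

/-! Layers of prime order. -/

set_option autoImplicit false

namespace Pool.Agent.P.MP_6d14ae_al.V

open MulAction T
open S hiding Dat Lay c_one c_div facN ext_b triK next chi chi_one

section
variable {G : Type} [Group G]

theorem rmul {D F N : Subgroup G} (h1 : D ⊓ N ≤ F) (h2 : F ≤ N) :
    D.relIndex F * F.relIndex N = D.relIndex N := by
  have e := Subgroup.relIndex_inf_mul_relIndex D F N
  rwa [← Subgroup.inf_relIndex_right (D ⊓ F), inf_right_comm, inf_eq_left.2 h1,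
    Subgroup.inf_relIndex_right, inf_eq_left.2 h2] at e

theorem pr1 {D F N : Subgroup G} {p : ℕ} (hp : p.Prime) (h : D.relIndex N = p) (h1 : D ⊓ N ≤ F)
    (h2 : F ≤ N) : F ≤ D ∨ N ≤ F := by
  have e := (rmul h1 h2).trans h
  rcases (Nat.dvd_prime hp).1 (Dvd.intro _ e) with k | k
  · exact .inl (Subgroup.relIndex_eq_one.1 k)
  · rw [k] at e
    exact .inr (Subgroup.relIndex_eq_one.1 (by simpa [hp.ne_zero] using e))

theorem pr2 [Finite G] {D N U : Subgroup G} {p : ℕ} (hp : p.Prime) (h : D.relIndex N = p)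
    (hU : IsPGroup p U) (hF : ∀ a ∈ N, ∀ b ∈ N, a * b * a⁻¹ * b⁻¹ ∈ D)
    (h1 : ∀ u ∈ U, ∀ n ∈ N, u * n * u⁻¹ ∈ N) (h2 : ∀ u ∈ U, ∀ n ∈ N, n ∈ D → u * n * u⁻¹ ∈ D) :
    ∀ u ∈ U, ∀ n ∈ N, n⁻¹ * u * n * u⁻¹ ∈ D := by
  obtain ⟨F, a1, a2⟩ := cnt D N U hp hU hF h1 h2
  refine fun u hu n hn => ((a1 n).1 ((pr1 hp h (fun m hm => (a1 m).2 ⟨hm.2, fun u hu => by
    simpa [mul_assoc] using D.mul_mem (D.inv_mem hm.1) (h2 u hu m hm.2 hm.1)⟩)
    fun m hm => ((a1 m).1 hm).1).resolve_left (fun k => ?_) hn)).2 u hu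
  rw [Subgroup.relIndex_eq_one.2 k, h] at a2
  exact hp.one_lt.ne' (Nat.dvd_one.1 ((a2.dvd_iff dvd_rfl).1 dvd_rfl))

theorem gen {D N : Subgroup G} {p : ℕ} (hp : p.Prime) (h : D.relIndex N = p)
    (hF : ∀ a ∈ N, ∀ b ∈ N, a * b * a⁻¹ * b⁻¹ ∈ D) {x : G} (hx : x ∈ N) (h0 : x ∉ D) :
    ∀ m ∈ N, ∃ k : ℕ, (x ^ k)⁻¹ * m ∈ D := by
  have hn : (D.subgroupOf N).Normal := ⟨fun d hd a => by
    have := D.mul_mem (hF a a.2 d d.2) hd
    show a.1 * d.1 * a.1⁻¹ ∈ D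
    simpa using this⟩
  have := Fact.mk hp
  have : Finite (N ⧸ D.subgroupOf N) := Nat.finite_of_card_ne_zero (h ▸ hp.ne_zero : D.relIndex N ≠ 0)
  intro m hm
  obtain ⟨k, hk⟩ := mem_powers_iff_mem_zpowers.2 (mem_zpowers_of_prime_card
    (G := N ⧸ D.subgroupOf N) h (g := (⟨x, hx⟩ : N)) (g' := (⟨m, hm⟩ : N))
    fun e => h0 ((QuotientGroup.eq_one_iff (N := D.subgroupOf N) _).1 e))
  exact ⟨k, (QuotientGroup.eq (s := D.subgroupOf N)).1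
    ((QuotientGroup.mk_pow _ (⟨x, hx⟩ : N) k).trans hk)⟩

end

variable {G X A : Type} [Group G] [MulAction G X] [AddCommGroup A] [DistribMulAction G A]
  {K N : Subgroup G} (hK : K.Normal) (hN : N.Normal)
  (clo : ∀ g : G, (∀ y : X, ∃ k ∈ K, g • y = k • y) → g ∈ K)

theorem fac [Finite G] [IsPretransitive G X] (hl : K ≤ N) (y : X) :
    Nat.card X = (stabilizer G y).relIndex (DD K hK y) * (DD K hK y).relIndex N *
      (DD N hN y).index := by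
  rw [← rel_eq hK hN, Subgroup.relIndex_mul_relIndex _ _ _ (st_le K hK y)
    (DD_mono hK hN hl y), Subgroup.relIndex_mul_index (st_le N hN y),
    index_stabilizer_of_transitive]

theorem fac2 [Finite G] (hl : K ≤ N) (y : X) :
    (DD K hK y).relIndex N * (DD N hN y).index = (DD K hK y).index := by
  rw [← rel_eq hK hN, Subgroup.relIndex_mul_index (DD_mono hK hN hl y)]

theorem tra [IsPretransitive G X] {y : X} (h : (DD N hN y).index = 1) (s t : X) :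
    ∃ n ∈ N, t = n • s := by
  have h1 : ∀ z, ∃ n ∈ N, z = n • y := fun z => by
    obtain ⟨g, rfl⟩ := exists_smul_eq G y z
    exact (Subgroup.index_eq_one.1 h ▸ Subgroup.mem_top g : g ∈ DD N hN y)
  obtain ⟨n, hn, rfl⟩ := h1 s
  obtain ⟨n', hn', rfl⟩ := h1 t
  exact ⟨n' * n⁻¹, mul_mem hn' (inv_mem hn), by simp [mul_smul]⟩

include hN clo in
theorem lay [Finite G] [IsPretransitive G X] (hl : K < N) {p : ℕ} (hp : p.Prime)
    (h1 : ∀ a ∈ N, ∀ b ∈ N, a * b * a⁻¹ * b⁻¹ ∈ K) (h2 : ∀ a ∈ N, a ^ p ∈ K) (y : X) :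
    ∃ i, (DD K hK y).relIndex N = p ^ (i + 1) := by
  obtain ⟨i, hi⟩ := pw (DD K hK y) N hp (fun a ha b hb => le_DD K hK y (h1 a ha b hb))
    fun a ha => le_DD K hK y (h2 a ha)
  rcases i with _ | i
  · refine (hl.not_ge fun n hn => clo n fun z => ?_).elim
    obtain ⟨g, rfl⟩ := exists_smul_eq G y z
    have := DD_conj hK g (Subgroup.relIndex_eq_one.1 hi (hN.conj_mem' n hn g))
    rwa [show g * (g⁻¹ * n * g) * g⁻¹ = n by group] at this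
  · exact ⟨i, hi⟩

include clo in
theorem reg {y : X} (h : ∀ t, ∃ n ∈ N, t = n • y)
    {g : G} (hg : ∀ n ∈ N, n⁻¹ * g * n * g⁻¹ ∈ K) (e : g ∈ DD K hK y) : g ∈ K :=
  clo g fun z => by
    obtain ⟨m, hm, rfl⟩ := h z
    have := DD_conj hK m (mul_mem (le_DD K hK y (hg m hm)) e)
    rwa [show m * (m⁻¹ * g * m * g⁻¹ * g) * m⁻¹ = g by group] at this

include hK clo in
theorem trl {p : ℕ} (h1 : ∀ a ∈ N, ∀ b ∈ N, a * b * a⁻¹ * b⁻¹ ∈ K) (h2 : ∀ a ∈ N, a ^ p ∈ K)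
    {l : G} (hl : l ∈ KK X N hN) (e : ∀ n ∈ N, n⁻¹ * l * n * l⁻¹ ∈ K) :
    l ^ p ∈ K ∧ ∀ l' ∈ KK X N hN, (∀ n ∈ N, n⁻¹ * l' * n * l'⁻¹ ∈ K) → l * l' * l⁻¹ * l'⁻¹ ∈ K := by
  let π := QuotientGroup.mk' K
  have cm : ∀ {a b : G}, a⁻¹ * b * a * b⁻¹ ∈ K → Commute (π a⁻¹) (π b) := fun {a b} h =>
    commutatorElement_eq_one_iff_commute.1 (by
      simpa [commutatorElement_def, π] using (QuotientGroup.eq_one_iff _).2 h)
  refine ⟨clo _ fun y => ?_, fun l' hl' e' => ?_⟩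
  · obtain ⟨n, hn, e1⟩ := mem_KK.1 hl y
    have h5 : π ((n⁻¹ * l) ^ p) = π (l ^ p) := by
      rw [map_pow, map_mul, (cm (e n hn)).mul_pow, ← map_pow, show π (n⁻¹ ^ p) = 1 from
        (QuotientGroup.eq_one_iff _).2 (h2 _ (inv_mem hn)), one_mul, map_pow]
    show l ^ p ∈ DD K hK y
    simpa using mul_mem (pow_mem (inv_mul_DD K hK e1) p) (le_DD K hK y (QuotientGroup.eq.1 h5))
  · refine clo _ fun y => ?_
    obtain ⟨n, hn, e1⟩ := mem_KK.1 (inv_mem hl) y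
    obtain ⟨m, hm, e2⟩ := mem_KK.1 (inv_mem hl') y
    have a1 := inv_mul_DD K hK e1
    have a2 := inv_mul_DD K hK e2
    have c1 := (cm (e n hn)).eq
    have c2 := (cm (e m hm)).eq
    have c3 := (cm (e' n hn)).eq
    have c4 := (cm (e' m hm)).eq
    have c5 := (cm (a := n) (b := m⁻¹) (by simpa using h1 _ (inv_mem hn) _ (inv_mem hm))).eq
    have h5 : π ((n⁻¹ * l⁻¹)⁻¹ * (m⁻¹ * l'⁻¹)⁻¹ * (n⁻¹ * l⁻¹) * (m⁻¹ * l'⁻¹)) =
        π (l * l' * l⁻¹ * l'⁻¹) := by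
      simp only [map_mul, map_inv] at c1 c2 c3 c4 c5 ⊢
      generalize π l = a at *
      generalize π l' = b at *
      generalize π n = x at *
      generalize π m = z at *
      have d1 : Commute x b := by simpa using (show Commute x⁻¹ b from c3).inv_left
      have d2 : Commute z a := by simpa using (show Commute z⁻¹ a from c2).inv_left
      have d3 : Commute x z := by simpa using (show Commute x⁻¹ z⁻¹ from c5).inv_inv
      calc _ = a * (x * (b * z) * x⁻¹) * a⁻¹ * z⁻¹ * b⁻¹ := by group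
        _ = a * b * (z * a⁻¹ * z⁻¹) * b⁻¹ := by rw [(d1.mul_right d3).mul_inv_cancel]; group
        _ = _ := by rw [d2.inv_right.mul_inv_cancel]
    have := mul_mem (mul_mem (mul_mem (mul_mem (inv_mem a1) (inv_mem a2)) a1) a2)
      (le_DD K hK y (QuotientGroup.eq.1 h5))
    rwa [mul_inv_cancel_left] at this

variable (e : Dat G X A) {p : ℕ}

theorem fp (hpN : e.N1.Coprime p) (h2 : ∀ a ∈ N, a ^ p ∈ K) {n : G} (hn : n ∈ N) :
    N.Normal → ∃ u ∈ e.W, u ∈ N ∧ e.c u = e.c n ∧ u⁻¹ * n ∈ K := fun hN => by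
  obtain ⟨u, hu, e2⟩ := e.hs (e.c n)
  exact ⟨u, hu, facN e N hN hn hu e2, e2, cop K hpN
    (e.hP (u⁻¹ * n) (by rw [c_div, e2, sub_self, smul_zero]) ▸ K.one_mem)
    (h2 _ (mul_mem (inv_mem (facN e N hN hn hu e2)) hn))⟩

theorem cyc1 {D Y : AddSubgroup A} (hD : ∀ (g : G) v, v ∈ D → g • v ∈ D)
    (hY : ∀ (g : G) v, v ∈ Y → g • v ∈ Y) (l : D ≤ Y) (R : Subgroup G)
    (h1 : ∀ u ∈ e.W, e.c u ∈ Y → u ∈ R → e.c u ∈ D)
    (h2 : ∀ x ∈ e.W, x ∉ R → ∀ u ∈ e.W, ∃ k : ℕ, (x ^ k)⁻¹ * u ∈ R) {v : A} (v0 : v ∉ D)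
    (v1 : v ∈ Y) (hv : ∀ u ∈ e.W, u • v - v ∈ D) : ∀ u ∈ e.W, ∀ z ∈ Y, u • z - z ∈ D := by
  obtain ⟨x, hx, rfl⟩ := e.hs v
  have h3 : ∀ k : ℕ, e.c (x ^ k) - k • e.c x ∈ D := fun k => by
    induction k with
    | zero => simp [c_one]
    | succ k ih =>
      convert D.add_mem ih (hv _ (pow_mem hx k)) using 1
      rw [pow_succ, e.hc, succ_nsmul]; abel
  intro u hu z hz
  obtain ⟨w, hw, rfl⟩ := e.hs z
  obtain ⟨k, hk⟩ := h2 x hx (fun h => v0 (h1 x hx v1 h)) w hw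
  have h4 := hD (x ^ k) _ (h1 _ (mul_mem (inv_mem (pow_mem hx k)) hw) (by
    rw [c_div]
    exact hY _ _ (Y.sub_mem hz (by simpa using Y.add_mem (l (h3 k)) (Y.nsmul_mem v1 k)))) hk)
  rw [c_div, smul_inv_smul] at h4
  have h5 := D.add_mem h4 (h3 k)
  convert D.add_mem (D.sub_mem (hD u _ h5) h5) (D.nsmul_mem (hv u hu) k) using 1
  simp only [smul_sub, smul_add, smul_comm u k]
  abel

include hK clo in
theorem up2 [Finite G] [Group.IsSolvable G] {a : ℕ} (hp : p.Prime) (he : e.N2 = p ^ a)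
    (K0 : Subgroup G) : ∀ B0, Lay e K0 B0 → K0 ≤ K → (∃ B, Lay e K B) ∨
      ∃ (K1 N1 : Subgroup G) (B : AddSubgroup A), Lay e K1 B ∧ N1.Normal ∧ K1 < N1 ∧ N1 ≤ K ∧
        (∀ a ∈ N1, ∀ b ∈ N1, a * b * a⁻¹ * b⁻¹ ∈ K1) ∧ (∀ a ∈ N1, a ^ p ∈ K1) ∧
        ¬∀ n ∈ N1, ∀ v, n • v - v ∈ B := by
  induction K0 using WellFoundedGT.induction with
  | _ K0 ih =>
  intro B0 I l
  rcases l.eq_or_lt with rfl | l
  · exact .inl ⟨B0, I⟩
  have := I.nor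
  obtain ⟨q, hq, N, hN, h1, h2, h3, h4, -⟩ := elem2 K0 K l
  by_cases h : ∀ k ∈ KK X N hN, ∀ v, k • v - v ∈ B0
  · obtain ⟨B', I', -⟩ := next I hN h1.le h
    exact ih _ (h1.trans_le fun n hn => mem_KK.2 fun y => ⟨n, hn, rfl⟩) B' I'
      fun g hg => clo g fun y => let ⟨n, hn, e⟩ := mem_KK.1 hg y; ⟨n, h2 hn, e⟩
  · obtain rfl : q = p := by
      by_contra k
      exact h (triK I hN fun w hw hn => cop K0 (((Nat.coprime_primes hq hp).2 k).pow_right a)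
        (h4 w hn) (he ▸ e.hW w hw ▸ K0.one_mem))
    refine .inr ⟨K0, N, B0, I, hN, h1, h2, h3, h4, fun k => h fun g hg => ext_b e B0 g fun y => ?_⟩
    obtain ⟨n, hn, e1⟩ := mem_KK.1 hg y
    rw [← e.hb, e1, e.hb]
    exact k n hn _

end Pool.Agent.P.MP_6d14ae_al.V
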