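import Pool.Agent.P.MP_6d14ae_al.V.Sml
import Pool.Agent.P.MP_6d14ae_al.U.Suf

/-! A family with a group of even order, and the small odd sizes. -/

set_option autoImplicit false

namespace Pool.Agent.P.MP_6d14ae_al.V

open Function J U

theorem conC {q m : ℕ} (hq : 3 ≤ q) (hm : 3 ≤ m) :
    ∃ (X : Type) (_ : Fintype X) (σ : X → Equiv.Perm X), Fintype.card X = q ^ 2 * m ∧
      (∀ x y z, σ (σ x y) (σ x z) = σ (σ y x) (σ y z)) ∧
      (¬ ∃ Y Z : Set X, Y.Nonempty ∧ Z.Nonempty ∧ Disjoint Y Z ∧ Y ∪ Z = Set.univ ∧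
        (∀ y ∈ Y, ∀ z ∈ Z, σ y z ∈ Z) ∧ (∀ z ∈ Z, ∀ y ∈ Y, σ z y ∈ Y)) ∧
      2 ∣ Nat.card (Subgroup.closure (Set.range σ)) := by
  have : NeZero q := ⟨by omega⟩
  have : NeZero m := ⟨by omega⟩
  obtain ⟨q0, q1, q2⟩ := sn_val (ZMod q) hq
  obtain ⟨m0, m1, -⟩ := sn_val (ZMod q) hm
  obtain ⟨f, hf⟩ : ∃ f : ZMod q × ZMod m × ZMod q → ZMod q × ZMod m × ZMod q →
      ZMod q × ZMod m × ZMod q, ∀ s t, f s t = (-(t.1 + s.2.2), t.2.1 + 1,
        -(t.2.2 + sn (ZMod q) (t.1 - s.1) * sn (ZMod q) (t.2.1 - s.2.1))) := ⟨_, fun _ _ => rfl⟩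
  have inj : ∀ s, Injective (f s) := by
    rintro ⟨a, u, x⟩ ⟨b, v, y⟩ ⟨c, w, z⟩ e
    simp only [hf, Prod.mk.injEq, neg_inj, add_left_inj] at e
    obtain ⟨rfl, rfl, e⟩ := e
    simpa using e
  obtain ⟨σ, hσ⟩ : ∃ σ : _ → Equiv.Perm _, ∀ s t, σ s t = f s t :=
    ⟨fun s => Equiv.ofBijective (f s) (Finite.injective_iff_bijective.1 (inj s)), fun _ _ => rfl⟩
  refine ⟨_, inferInstance, σ, by simp only [Fintype.card_prod, ZMod.card]; ring, ?_,
    indec_of_const fun P h => ?_, ?_⟩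
  · rintro ⟨a, u, x⟩ ⟨b, v, y⟩ ⟨c, w, z⟩
    simp only [hσ, hf, Prod.mk.injEq, neg_inj, add_sub_add_right_eq_sub, true_and]
    have e1 : ∀ b c x : ZMod q, -(c + x) - -(b + x) = -(c - b) := fun _ _ _ => by ring
    rw [e1, e1, sn_neg, sn_neg, ← neg_sub a b, ← neg_sub u v, sn_neg, sn_neg]
    constructor <;> ring
  · have R : ∀ (e e' b b' y y' : ZMod q) (v d d' : ZMod m),
        y + sn (ZMod q) e * sn (ZMod q) d = y' + sn (ZMod q) e' * sn (ZMod q) d' →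
        (P (b, v, y) ↔ P (b', v, y')) := fun e e' b b' y y' v d d' e1 => by
      rw [h (b - e, v - d, b'), h (b' - e', v - d', b) (b', v, y')]
      simp only [hσ, hf, sub_sub_cancel, e1, add_comm b b']
    have R1 : ∀ b b' v y y', P (b, v, y) ↔ P (b', v, y') := fun b b' v y y' =>
      (R 0 0 b b' y y v 0 0 rfl).trans (step (fun y => P (b', v, y)) isUnit_one
        (fun y => R 1 0 _ _ _ _ _ 1 0 (by simp [q0, q1, m1])) y y')
    rintro ⟨b, v, y⟩ ⟨b', v', y'⟩ hp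
    refine (step (fun u => P (b', u, y')) isUnit_one (fun u => ?_) v v').1 ((R1 _ _ _ _ _).1 hp)
    rw [h 0, hσ, hf]
    exact R1 _ _ _ _ _
  · have h1 : σ 0 ^ Nat.card (GG σ) = 1 := congrArg Subtype.val (pow_card_eq_one' (x := sg σ 0))
    have h2 : ∀ k : ℕ, ((σ 0 ^ k) (1, 0, 0)).1 = (-1) ^ k := fun k => by
      induction k with
      | zero => simp
      | succ k ih => rw [pow_succ', Equiv.Perm.mul_apply, hσ, hf, ih]; simp [pow_succ]
    by_contra h3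
    have h4 := h2 (Nat.card (GG σ))
    rw [h1, (Nat.odd_iff.2 (Nat.two_dvd_ne_zero.1 h3)).neg_one_pow] at h4
    have h5 : (1 : ZMod q) = -1 := h4
    rw [sn, if_pos rfl, if_pos h5, sub_self] at q1
    exact q2 q1.symm

/-- an odd size with a square factor and at most three prime factors -/
theorem shape {n : ℕ} (hn : 0 < n) (hrn : ¬2 ∣ n) {p e : ℕ} (hp : p.Prime) (he : 0 < e)
    (h1 : p ^ (e + 1) ∣ n) : ∃ m, n = p ^ 2 * m ∧ p ≠ 2 ∧ ¬2 ∣ m ∧
      n.primeFactorsList.length = 2 + m.primeFactorsList.length := by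
  obtain ⟨m, rfl⟩ := (pow_dvd_pow p (by omega : 2 ≤ e + 1)).trans h1
  refine ⟨m, rfl, ?_, fun h => hrn (h.mul_left _), ?_⟩
  · rintro rfl
    exact hrn ⟨2 * m, by ring⟩
  · rw [len_mul (pow_ne_zero 2 hp.ne_zero) (right_ne_zero_of_mul hn.ne'), sq,
      len_mul hp.ne_zero hp.ne_zero, Nat.primeFactorsList_prime hp]
    rfl

theorem len_le {m : ℕ} (h0 : m ≠ 0) (h : m.primeFactorsList.length ≤ 1) : m = 1 ∨ m.Prime := by
  have h1 := Nat.prod_primeFactorsList h0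
  match hl : m.primeFactorsList with
  | [] => exact Or.inl (by simpa [hl] using h1.symm)
  | [l] =>
    have h2 : l = m := by simpa [hl] using h1
    exact Or.inr (h2 ▸ Nat.prime_of_mem_primeFactorsList (n := m) (by simp [hl]))
  | _ :: _ :: _ => simp [hl] at h

end Pool.Agent.P.MP_6d14ae_al.V
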