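import Pool.Agent.P.MP_6d14ae_al.V.Bas

/-! The middle steps of the layer argument, and primes that divide the degree once. -/

set_option autoImplicit false

namespace Pool.Agent.P.MP_6d14ae_al.V

open MulAction T
open S hiding Dat Lay c_one c_div facN ext_b triK next chi chi_one

variable {G X C : Type} [Group G] [Finite G] [MulAction G X]
  [IsPretransitive G X] [AddCommGroup C] [DistribMulAction G C] {K N : Subgroup G}
  (e : Dat G X C) {p a : ℕ} (hp : p.Prime) (he : e.N2 = p ^ a) (hpN : e.N1.Coprime p)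
  (hC : ∀ v : C, p ^ a • v = 0)

include e in
omit [Finite G] [IsPretransitive G X] in
theorem Ltri {Y : AddSubgroup C} (hN : N.Normal) (h : ∀ n ∈ N, ∀ v, n • v - v ∈ Y) :
    ∀ l ∈ KK X N hN, ∀ v, l • v - v ∈ Y := fun l hl => ext_b e Y l fun z => by
  obtain ⟨n, hn, e2⟩ := mem_KK.1 hl z
  rw [← e.hb, e2, e.hb]
  exact h n hn _

include he in
omit [Finite G] [IsPretransitive G X] in
theorem isP : IsPGroup p e.W := fun u => ⟨a, Subtype.ext (he ▸ e.hW u u.2)⟩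

include hp he hC in
omit [IsPretransitive G X] in
theorem mxl {B : AddSubgroup C} (hB : ∀ (g : G) v, v ∈ B → g • v ∈ B)
    (h : ¬∀ n ∈ N, ∀ v, n • v - v ∈ B) : ∃ D : AddSubgroup C, (∀ (g : G) v, v ∈ D → g • v ∈ D) ∧
      B ≤ D ∧ (¬∀ n ∈ N, ∀ v, n • v - v ∈ D) ∧ ∃ v, v ∉ D ∧ (∀ u ∈ e.W, u • v - v ∈ D) ∧
      ∀ Y : AddSubgroup C, (∀ (g : G) v, v ∈ Y → g • v ∈ Y) → D ≤ Y → v ∈ Y →
        ∀ n ∈ N, ∀ v, n • v - v ∈ Y := by
  have : Finite C := Finite.of_surjective e.c fun v => let ⟨w, _, h⟩ := e.hs v; ⟨w, h⟩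
  obtain ⟨D, ⟨hD, BD, nD⟩, mx⟩ := wellFounded_gt.has_min {D : AddSubgroup C |
      (∀ (g : G) v, v ∈ D → g • v ∈ D) ∧ B ≤ D ∧ ¬∀ n ∈ N, ∀ v, n • v - v ∈ D} ⟨B, hB, le_rfl, h⟩
  obtain ⟨v, v0, hv⟩ := fixq hp hC e.W (isP e he) hD fun k => nD fun _ _ _ => k ▸ trivial
  refine ⟨D, hD, BD, nD, v, v0, hv, fun Y hY l hv => ?_⟩
  by_contra h
  exact mx Y ⟨hY, BD.trans l, h⟩ ⟨l, fun k => v0 (k hv)⟩

include hp he hpN hC

theorem mid {B' : AddSubgroup C} (hK : K.Normal) (hN : N.Normal) (J : Lay e K B') (hl : K < N)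
    (h2 : ∀ a ∈ N, a ^ p ∈ K) (min : ∀ M : Subgroup G, M.Normal → K < M → M ≤ N → N ≤ M)
    (ex2 : ∃ ρ ∈ KK X N hN, ∃ n ∈ N, n⁻¹ * ρ * n * ρ⁻¹ ∉ K)
    (IR : ∀ (y : X) (F : Subgroup G), DD K hK y ⊓ N ≤ F → F ≤ N →
      (∀ l ∈ KK X N hN, ∀ m ∈ F, l * m * l⁻¹ ∈ F) → F ≤ DD K hK y ∨ N ≤ F)
    (TR : ∀ U ≤ e.W, (∀ u ∈ U, ∀ y : X, ∀ n ∈ N, n ∈ DD K hK y → u * n * u⁻¹ ∈ DD K hK y) →
      ∀ u ∈ U, ∀ n ∈ N, n⁻¹ * u * n * u⁻¹ ∈ K) :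
    ∃ (Y : AddSubgroup C) (Δ : Subgroup G), (∀ (g : G) v, v ∈ Y → g • v ∈ Y) ∧ Y ≠ ⊤ ∧
      (∀ g, g ∈ Δ ↔ ∀ v, g • v - v ∈ Y) ∧ KK X N hN ≤ Δ ∧ ∀ u ∈ e.W, u ∈ Δ → e.c u ∈ Y := by
  have CM := @com G X C _ _ _ _ K N hN e B'
  obtain ⟨D, hD, BD, nD, v, v0, hv, mx⟩ := mxl (N := N) e hp he hC J.sta
    fun h => hl.not_ge fun n hn => by
      obtain ⟨u, hu, -, e2, e3⟩ := fp e hpN h2 hn hN
      simpa using mul_mem ((J.iff u hu).1 (e2 ▸ CM J hl min ex2 J.sta le_rfl h n hn)) e3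
  let Y := fv D (N : Set G)
  have hY : ∀ (g : G) v, v ∈ Y → g • v ∈ Y := fv_sta hD fun t ht g => hN.conj_mem' t ht g
  have DY : D ≤ Y := le_fv hD _
  have NY := mx Y hY DY (mem_fv.2 fun n hn => by
    obtain ⟨u, hu, -, -, e3⟩ := fp e hpN h2 hn hN
    simpa [smul_sub, mul_smul] using D.add_mem (hD u _ (BD (J.tri _ e3 v))) (hv u hu))
  let Δ : Subgroup G := ⨅ v, fx Y hY v
  have hΔ : ∀ g, g ∈ Δ ↔ ∀ v, g • v - v ∈ Y := fun g => Subgroup.mem_iInf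
  have nΔ : Δ.Normal := ⟨fun g hg k => (hΔ _).2 fun v => by
    simpa [smul_sub, mul_smul] using hY k _ ((hΔ g).1 hg (k⁻¹ • v))⟩
  have LΔ : KK X N hN ≤ Δ := fun l h => (hΔ l).2 (Ltri e hN NY l h)
  have nor : ∀ y : X, ∀ g ∈ Δ, ∀ n ∈ N, n ∈ DD K hK y → g * n * g⁻¹ ∈ DD K hK y := fun y => by
    have inv : ∀ g ∈ Δ, ∀ m ∈ N ⊓ fx D hD (e.b y), g * m * g⁻¹ ∈ N ⊓ fx D hD (e.b y) :=
      fun g hg m hm => ⟨hN.conj_mem m hm.1 g, by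
        have := hD g _ (D.add_mem hm.2 (mem_fv.1 ((hΔ _).1 (inv_mem hg) (e.b y)) m hm.1))
        show (g * m * g⁻¹) • e.b y - e.b y ∈ D
        convert this using 1
        simp only [smul_sub, smul_add, mul_smul, smul_inv_smul]
        abel⟩
    have l : DD K hK y ⊓ N ≤ N ⊓ fx D hD (e.b y) := fun m ⟨⟨k, hk, e2⟩, hm⟩ => ⟨hm, by
      show m • e.b y - e.b y ∈ D
      rw [← e.hb, e2, e.hb]
      exact BD (J.tri k hk _)⟩
    have l2 := (IR y _ l inf_le_left fun ρ a1 => inv ρ (LΔ a1)).resolve_right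
      fun h => nD (all_b (d := e) hD hN y fun m hm => (h hm).2)
    exact fun g hg n hn h => l2 (inv g hg n (l ⟨h, hn⟩))
  have g2 : ∀ u ∈ e.W, u ∈ Δ → ∀ n ∈ N, n⁻¹ * u * n * u⁻¹ ∈ K := fun u hu h =>
    TR (e.W ⊓ Δ) inf_le_left (fun u hu y => nor y u hu.2) u ⟨hu, h⟩
  let T : Set G := {u | u ∈ Δ ∧ ∀ n ∈ N, n⁻¹ * u * n * u⁻¹ ∈ K}
  have g3 := CM (J := fv D T) J hl min ex2 (fv_sta hD fun t ht g =>
    ⟨nΔ.conj_mem' t ht.1 g, fun n hn => by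
      simpa [mul_assoc] using hK.conj_mem' _ (ht.2 _ (hN.conj_mem n hn g)) g⟩)
    (BD.trans (le_fv hD _)) fun n hn v => mem_fv.2 fun u hu => by
      have := D.add_mem (hD n _ (BD (J.tri _ (hu.2 n hn) (u • v))))
        (mem_fv.1 ((hΔ u).1 hu.1 v) n hn)
      convert this using 1
      simp only [smul_sub, mul_smul, inv_smul_smul, smul_inv_smul]
      abel
  refine ⟨Y, Δ, hY, fun h => nD fun n hn v => mem_fv.1 (show v ∈ Y from h ▸ trivial) n hn, hΔ, LΔ,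
    fun u hu h => mem_fv.2 fun n hn => ?_⟩
  have k1 := g2 u hu h n hn
  have k2 : e.c (u * n) = e.c (n * (n⁻¹ * u * n * u⁻¹ * u)) := by congr 1; group
  rw [e.hc u n, e.hc n, e.hc _ u] at k2
  have := D.sub_mem (D.sub_mem (mem_fv.1 (g3 n hn) u ⟨h, g2 u hu h⟩) (hD n _ (BD (cK J k1))))
    (hD n _ (BD (J.tri _ k1 (e.c u))))
  convert this using 1
  rw [smul_sub, eq_sub_of_add_eq' k2, smul_add]
  abel

theorem mid1 {B' : AddSubgroup C} (hK : K.Normal) (hN : N.Normal) (J : Lay e K B') (hl : K < N)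
    (h1 : ∀ a ∈ N, ∀ b ∈ N, a * b * a⁻¹ * b⁻¹ ∈ K)
    (h2 : ∀ a ∈ N, a ^ p ∈ K) (min : ∀ M : Subgroup G, M.Normal → K < M → M ≤ N → N ≤ M)
    (ex2 : ∃ ρ ∈ KK X N hN, ∃ n ∈ N, n⁻¹ * ρ * n * ρ⁻¹ ∉ K)
    (h : ∀ y : X, (DD K hK y).relIndex N = p) :
    ∃ (Y : AddSubgroup C) (Δ : Subgroup G), (∀ (g : G) v, v ∈ Y → g • v ∈ Y) ∧ Y ≠ ⊤ ∧
      (∀ g, g ∈ Δ ↔ ∀ v, g • v - v ∈ Y) ∧ KK X N hN ≤ Δ ∧ ∀ u ∈ e.W, u ∈ Δ → e.c u ∈ Y :=
  mid e hp he hpN hC hK hN J hl h2 min ex2 (fun y _ a b _ => pr1 hp (h y) a b)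
    fun _ l k u hu n hn => J.clo _ fun y => pr2 hp (h y) ((isP e he).to_le l)
      (fun a ha b hb => le_DD K hK y (h1 a ha b hb)) (fun u _ n hn => hN.conj_mem n hn u)
      (fun u hu => k u hu y) u hu n hn

omit hp he hpN hC [AddCommGroup C] [DistribMulAction G C] [IsPretransitive G X] [Finite G] in
theorem fixb {U : Subgroup G} (hp : p.Prime) (hP : IsPGroup p U) (hN : N.Normal) (y : X)
    (h : ¬p ∣ (DD N hN y).index) : ∃ x : X, U ≤ DD N hN x := by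
  have := Fact.mk hp
  obtain ⟨⟨g1⟩, hg1⟩ := hP.nonempty_fixed_point_of_prime_not_dvd_card (G ⧸ DD N hN y) h
  refine ⟨g1 • y, fun u hu => ?_⟩
  have h4 : (u * g1)⁻¹ * g1 ∈ DD N hN y := QuotientGroup.eq.1 (hg1 ⟨u, hu⟩)
  simpa [mul_assoc] using DD_conj hN g1 (inv_mem h4)

variable [Group.IsSolvable G]

omit hC in
theorem fin8 {Y : AddSubgroup C} {Δ : Subgroup G} (hY : ∀ (g : G) v, v ∈ Y → g • v ∈ Y)
    (Y0 : Y ≠ ⊤) (hΔ : ∀ g, g ∈ Δ ↔ ∀ v, g • v - v ∈ Y) (h : ∀ u ∈ e.W, u ∈ Δ → e.c u ∈ Y)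
    (hN : N.Normal) (l : N ≤ Δ) (y : X) : p ∣ (DD N hN y).index := by
  by_contra k
  obtain ⟨x, hx⟩ := fixb hp (isP e he) hN y k
  refine fin7 e hp he hpN Y hY Y0 Δ hΔ x (fun u hu => ?_) h
  obtain ⟨n, hn, e2⟩ := hx hu
  rw [← e.hb, e2, e.hb]
  exact (hΔ n).1 (l hn) _

variable [FaithfulSMul G X]

theorem LL (h0 : ¬p ^ 2 ∣ Nat.card X) (hK : K.Normal) (hN : N.Normal)
    (clo : ∀ g : G, (∀ y : X, ∃ k ∈ K, g • y = k • y) → g ∈ K) (hl : K < N)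
    (h1 : ∀ a ∈ N, ∀ b ∈ N, a * b * a⁻¹ * b⁻¹ ∈ K) (h2 : ∀ a ∈ N, a ^ p ∈ K)
    (min : ∀ M : Subgroup G, M.Normal → K < M → M ≤ N → N ≤ M) :
    ∀ ρ ∈ KK X N hN, ∀ n ∈ N, n⁻¹ * ρ * n * ρ⁻¹ ∈ K := by
  by_contra! ex2
  have k : ∀ y : X, (DD K hK y).relIndex N = p ∧
      ¬p ∣ (stabilizer G y).relIndex (DD K hK y) ∧ ¬p ∣ (DD N hN y).index := fun y => by
    obtain ⟨i, hi⟩ := lay hK hN clo hl hp h1 h2 y
    rw [fac hK hN hl.le y, hi] at h0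
    refine ⟨?_, fun ⟨t, ht⟩ => h0 ⟨t * p ^ i * (DD N hN y).index, by rw [ht]; ring⟩,
      fun ⟨t, ht⟩ => h0 ⟨t * p ^ i * (stabilizer G y).relIndex (DD K hK y), by rw [ht]; ring⟩⟩
    rcases i with _ | i
    · simpa using hi
    · exact (h0 ⟨(stabilizer G y).relIndex (DD K hK y) * p ^ i * (DD N hN y).index, by ring⟩).elim
  obtain ⟨B', J⟩ := up (d := e) hK clo (fun y => he ▸
    (hp.coprime_iff_not_dvd.2 (k y).2.1).pow_left a) ⊥ ⊥ (lay_bot e) bot_le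
  obtain ⟨Y, Δ, a1, a2, a3, a4, a5⟩ := mid1 e hp he hpN hC hK hN J hl h1 h2 min ex2 fun y => (k y).1
  obtain ⟨y, -⟩ := qd hK clo hl hp h1 h2
  exact (k y).2.2 (fin8 e hp he hpN a1 a2 a3 a5 hN
    (fun n hn => a4 (mem_KK.2 fun y => ⟨n, hn, rfl⟩)) y)

/-- above a closed normal subgroup, a layer of a prime dividing the degree once -/
theorem top (h0 : ¬p ^ 2 ∣ Nat.card X) {L : Subgroup G} (hK : K.Normal) (hL : L.Normal)
    (clo : ∀ g : G, (∀ y : X, ∃ k ∈ K, g • y = k • y) → g ∈ K) (hl : K ≤ L)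
    (h : ∀ y : X, (DD K hK y).relIndex L = p) :
    ∀ a ∈ L, a ^ p ∈ K ∧ ∀ b ∈ L, a * b * a⁻¹ * b⁻¹ ∈ K := by
  intro g hg
  rcases hl.eq_or_lt with rfl | hl
  · exact ⟨pow_mem hg p, fun b hb => mul_mem (mul_mem (mul_mem hg hb) (inv_mem hg)) (inv_mem hb)⟩
  obtain ⟨q, hq, N, hN, h1, h2, h3, h4, h5⟩ := elem2 K L hl
  have k : ∀ y : X, q = p ∧ L ≤ DD N hN y := fun y => by
    obtain ⟨i, hi⟩ := lay hK hN clo h1 hq h3 h4 y
    have e1 := Subgroup.relIndex_inf_mul_relIndex (DD K hK y) (DD N hN y) L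
    rw [inf_eq_left.2 (DD_mono hK hN h1.le y), h y] at e1
    have e2 : (DD K hK y).relIndex N ≤ (DD K hK y).relIndex (DD N hN y ⊓ L) :=
      Subgroup.relIndex_le_of_le_right (le_inf (le_DD N hN y) h2) Subgroup.index_ne_zero_of_finite
    have e3 : (DD K hK y).relIndex (DD N hN y ⊓ L) ≤ (DD K hK y).relIndex N :=
      rel_eq hK hN y ▸ Subgroup.relIndex_le_of_le_right inf_le_left Subgroup.index_ne_zero_of_finite
    rw [le_antisymm e3 e2, hi] at e1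
    obtain rfl : q = p := (Nat.prime_dvd_prime_iff_eq hq hp).1
      (e1 ▸ (dvd_pow_self q i.succ_ne_zero).mul_right _)
    refine ⟨rfl, Subgroup.relIndex_eq_one.1 ?_⟩
    rw [pow_succ', mul_assoc] at e1
    exact Nat.eq_one_of_mul_eq_one_left ((Nat.mul_eq_left hp.ne_zero).1 e1)
  obtain ⟨y, -⟩ := qd hK clo h1 hq h3 h4
  obtain rfl := (k y).1
  have hle : L ≤ KK X N hN := fun l h => mem_KK.2 fun y => (k y).2 h
  have k2 := LL e hp he hpN hC h0 hK hN clo h1 h3 h4 h5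
  have k3 := trl hK hN clo h3 h4 (hle hg) (k2 g (hle hg))
  exact ⟨k3.1, fun b hb => k3.2 b (hle hb) (k2 b (hle hb))⟩

theorem T0 (h0 : ¬p ^ 2 ∣ Nat.card X) (hN : N.Normal) {y : X} (h : (DD N hN y).index = p)
    {g : G} {x z : X} (hg : e.c g = e.b x) {k : ℕ} (hk : g ^ k • z = z) : p ∣ k := by
  by_contra k0
  have hK := KK_normal (X := X) N hN
  have e1 : ∀ t, DD (KK X N hN) hK t = DD N hN t := fun t => le_antisymm
    (fun g ⟨k, hk, e⟩ => e ▸ mem_KK.1 hk t)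
    (DD_mono hN hK (fun n hn => mem_KK.2 fun y => ⟨n, hn, rfl⟩) t)
  have clo : ∀ g : G, (∀ t : X, ∃ k ∈ KK X N hN, g • t = k • t) → g ∈ KK X N hN :=
    fun g hg => mem_KK.2 fun t => (e1 t).le (hg t)
  have e2 : ∀ t, (DD (KK X N hN) hK t).index = p := fun t => by
    obtain ⟨w, rfl⟩ := exists_smul_eq G y t
    rw [e1, ← h, ← Subgroup.index_map_equiv (DD N hN y) (MulAut.conj w)]
    congr 1
    ext g
    refine ⟨fun k => ⟨w⁻¹ * g * w, by simpa using DD_conj hN w⁻¹ k, by simp [mul_assoc]⟩, ?_⟩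
    rintro ⟨g, k, rfl⟩
    exact DD_conj hN w k
  generalize KK X N hN = K at hK e2 clo
  obtain ⟨B, J⟩ := up (d := e) hK clo (fun t => he ▸ (hp.coprime_iff_not_dvd.2 fun ⟨s, hs⟩ => h0 ⟨s, by
    rw [← index_stabilizer_of_transitive G t, ← Subgroup.relIndex_mul_index (st_le K hK t), hs, e2]
    ring⟩).pow_left a) ⊥ ⊥ (lay_bot e) bot_le
  have k1 := top e hp he hpN hC h0 hK inferInstance clo le_top
    fun t => (Subgroup.relIndex_top_right _).trans (e2 t)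
  have k2 : g ^ k ∈ K := reg (N := ⊤) hK clo (y := z)
    (fun t => let ⟨n, hn⟩ := exists_smul_eq G z t; ⟨n, trivial, hn.symm⟩)
    (fun n _ => by simpa using (k1 n⁻¹ trivial).2 (g ^ k) trivial) (st_le K hK z hk)
  have k3 := hg ▸ cK J (cop K (hp.coprime_iff_not_dvd.2 k0) (k1 g trivial).1 k2)
  have k4 : B = ⊤ := eq_top_iff.2 (e.hg ▸ (AddSubgroup.closure_le _).2 (by
    rintro _ ⟨t, rfl⟩
    obtain ⟨w, rfl⟩ := exists_smul_eq G x t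
    rw [e.hb]
    exact J.sta _ _ k3))
  refine hp.one_lt.ne' ((e2 x).symm.trans (Subgroup.index_eq_one.2 (eq_top_iff.2 fun w _ => ?_)))
  obtain ⟨u, hu, -, -, e3⟩ := fp (N := ⊤) e hpN (fun a ha => (k1 a ha).1) (Subgroup.mem_top w)
    inferInstance
  simpa using le_DD K hK x (mul_mem ((J.iff u hu).1 (k4 ▸ trivial)) e3)

end Pool.Agent.P.MP_6d14ae_al.V
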