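import Pool.Agent.P.MP_6d14ae_al.V.Mid

/-! The end of the layer argument below a small top, and a top layer of rank two. -/

set_option autoImplicit false

namespace Pool.Agent.P.MP_6d14ae_al.V

open MulAction T
open S hiding Dat Lay c_one c_div facN ext_b triK next chi chi_one

theorem cz {G : Type} [Group G] (K : Subgroup G) [K.Normal] (n u : G) :
    n⁻¹ * u * n * u⁻¹ ∈ K ↔ Commute (n : G ⧸ K) u := by
  rw [← QuotientGroup.eq_one_iff, ← Commute.inv_left_iff, ← commutatorElement_eq_one_iff_commute]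
  simp [commutatorElement_def]

variable {G X C : Type} [Group G] [Finite G] [MulAction G X] {K N : Subgroup G}

section
variable (hK : K.Normal) (clo : ∀ g : G, (∀ y : X, ∃ k ∈ K, g • y = k • y) → g ∈ K) (hl : K ≤ N)
  (h1 : ∀ a ∈ N, ∀ b ∈ N, a * b * a⁻¹ * b⁻¹ ∈ K) {y : X} (h : ∀ t, ∃ n ∈ N, t = n • y)
include clo hl h1 h

omit [Finite G] in
theorem ridx : K.relIndex N = (DD K hK y).relIndex N := by
  rw [← Subgroup.inf_relIndex_right (DD K hK y)]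
  congr 1
  exact le_antisymm (le_inf (le_DD K hK y) hl) fun g hg =>
    reg hK clo h (fun n hn => by simpa using h1 _ (inv_mem hn) g hg.2) hg.1

include hK in
theorem PleN (hN : N.Normal) {p : ℕ} (hp : p.Prime) (e : K.relIndex N = p) {U : Subgroup G}
    (hU : IsPGroup p U) : U ≤ N := fun u hu => by
  obtain ⟨n, hn, e1⟩ := h (u • y)
  have k := pr2 hp e hU h1 (fun u _ n hn => hN.conj_mem n hn u)
    (fun u _ n _ k => hK.conj_mem n k u) u hu
  simpa using mul_mem hn (hl (reg hK clo h (fun m hm => (cz K _ _).2 (by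
    rw [QuotientGroup.mk_mul]
    exact ((cz K _ _).1 (by simpa using h1 _ (inv_mem hm) _ (inv_mem hn))).mul_right
      ((cz K _ _).1 (k m hm)))) (inv_mul_DD K hK e1)))

end

variable [AddCommGroup C] [DistribMulAction G C] (e : Dat G X C) {p a : ℕ} (hp : p.Prime)
  (he : e.N2 = p ^ a)

include hp he

theorem two [IsPretransitive G X] [Group.IsSolvable G] (hpN : e.N1.Coprime p)
    (hC : ∀ v : C, p ^ a • v = 0) {m : ℕ} (hm : m = 1 ∨ m.Prime) (hpm : ¬p ∣ m)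
    (hT : ∀ (M : Subgroup G) (hM : M.Normal) (y : X), (DD M hM y).index = m → m = 1)
    (hN : N.Normal) (y : X) (hz : (DD N hN y).index ∣ p * m)
    (H : ∃ (Y : AddSubgroup C) (Δ : Subgroup G), (∀ (g : G) v, v ∈ Y → g • v ∈ Y) ∧ Y ≠ ⊤ ∧
      (∀ g, g ∈ Δ ↔ ∀ v, g • v - v ∈ Y) ∧ KK X N hN ≤ Δ ∧ ∀ u ∈ e.W, u ∈ Δ → e.c u ∈ Y) :
    False := by
  obtain ⟨Y, Δ, hY, Y0, hΔ, l, h⟩ := H
  have hn : Δ.Normal := ⟨fun g hg k => (hΔ _).2 fun v => by
    simpa [smul_sub, mul_smul] using hY k _ ((hΔ g).1 hg (k⁻¹ • v))⟩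
  have clo : ∀ g : G, (∀ y : X, ∃ k ∈ Δ, g • y = k • y) → g ∈ Δ := fun g hg =>
    (hΔ g).2 (Ltri e hn (fun n k => (hΔ n).1 k) g (mem_KK.2 hg))
  have k0 := fin8 e hp he hpN hY Y0 hΔ h hn le_rfl y
  have k1 := (Subgroup.index_dvd_of_le (DD_mono hN hn
    (fun n hn => l (mem_KK.2 fun y => ⟨n, hn, rfl⟩)) y)).trans hz
  obtain ⟨q, hq, M, hM, h1, -, h3, h4, -⟩ := elem2 Δ ⊤ (lt_top_iff_ne_top.2 fun k => by
    rw [Subgroup.index_eq_one.2 (eq_top_iff.2 (k.ge.trans (le_DD Δ hn y)))] at k0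
    exact hp.one_lt.ne' (Nat.dvd_one.1 k0))
  by_cases hpq : q = p
  · subst hpq
    obtain ⟨i, hi⟩ := lay hn hM clo h1 hq h3 h4 y
    rw [← fac2 hn hM h1.le y, hi, pow_succ', mul_assoc, Nat.mul_dvd_mul_iff_left hq.pos] at k1
    rcases i with _ | i
    swap
    · exact hpm (((dvd_pow_self q i.succ_ne_zero).mul_right _).trans k1)
    rw [pow_zero, one_mul] at k1
    have k2 : (DD M hM y).index = 1 := by
      rcases hm with rfl | hm
      · exact Nat.dvd_one.1 k1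
      · exact ((Nat.dvd_prime hm).1 k1).elim id fun k => k.trans (hT M hM y k)
    have k3 := (ridx hn clo h1.le h3 (tra hM k2 y)).trans (hi.trans (pow_one q))
    have k4 := PleN hn clo h1.le h3 (tra hM k2 y) hM hq k3 (isP e he)
    have : Finite C := Finite.of_surjective e.c fun v => let ⟨w, _, h⟩ := e.hs v; ⟨w, h⟩
    obtain ⟨v, v0, hv⟩ := fixq hp hC e.W (isP e he) hY Y0
    have k5 := cyc1 e hY (Y := ⊤) (fun _ _ _ => trivial) le_top Δ (fun u hu _ => h u hu)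
      (fun x hx x0 u hu => gen hq k3 h3 (k4 hx) x0 u (k4 hu)) v0 trivial hv
    obtain ⟨u, hu, rfl⟩ := e.hs v
    exact v0 (h u hu ((hΔ u).2 fun z => k5 u hu z trivial))
  · have h5 : ∀ m ∈ M, e.c m ∈ Y := fun m hm => by
      obtain ⟨u, hu, e1⟩ := e.hs (e.c m)
      exact e1 ▸ h u hu (cop Δ (((Nat.coprime_primes hq hp).2 hpq).pow_right a)
        (h4 u (facN e M hM hm hu e1)) (he ▸ e.hW u hu ▸ Δ.one_mem))
    refine h1.not_ge fun m hm => (hΔ m).2 fun v => ?_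
    obtain ⟨w, -, rfl⟩ := e.hs v
    have h3 := Y.sub_mem (hY w _ (h5 _ (hM.conj_mem' m hm w))) (h5 m hm)
    rw [mul_assoc, c_div, smul_inv_smul, e.hc] at h3
    convert h3 using 1
    abel

theorem one {A : Type} [AddCommGroup A] [DistribMulAction G A] (d : Dat G X A) (ho : Odd d.N1)
    (p2 : p ≠ 2) (hZ : ∀ u ∈ e.W, d.c u = 0)
    (hH : ∀ w ∈ d.W, ∀ u ∈ e.W, ∃ u' ∈ e.W, ∃ w' ∈ d.W, w * u = u' * w')
    {B : AddSubgroup A} (hN : N.Normal) (I : Lay d K B) (hl : K ≤ N)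
    (h1 : ∀ a ∈ N, ∀ b ∈ N, a * b * a⁻¹ * b⁻¹ ∈ K) (h2 : ∀ a ∈ N, a ^ p ∈ K)
    (min : ∀ M : Subgroup G, M.Normal → K < M → M ≤ N → N ≤ M)
    (h3 : ∀ (g : G) v, g • v - v ∈ B) (h4 : K.relIndex N = p ^ 2) :
    ∀ u ∈ e.W, ∀ n ∈ N, n⁻¹ * u * n * u⁻¹ ∈ K := by
  have hK := I.nor
  by_contra! H
  obtain ⟨u, hu, n0, hn0, H⟩ := H
  obtain ⟨F, a1, a2⟩ := cnt K N e.W hp (isP e he) h1 (fun u _ n hn => hN.conj_mem n hn u)
    fun u _ n _ k => hK.conj_mem n k u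
  have KF : K ≤ F := fun k hk => (a1 k).2 ⟨hl hk, fun u _ => by
    simpa [mul_assoc] using mul_mem (inv_mem hk) (hK.conj_mem k hk u)⟩
  have FN : F ≤ N := fun f hf => ((a1 f).1 hf).1
  have nF : ¬N ≤ F := fun k => H (((a1 n0).1 (k hn0)).2 u hu)
  have b0 := (rmul (inf_le_left.trans KF) FN).trans h4
  obtain ⟨t, ht⟩ : p ∣ K.relIndex F := (a2.dvd_iff dvd_rfl).1 (h4 ▸ dvd_pow_self p two_ne_zero)
  rw [ht, mul_assoc, sq, Nat.mul_right_inj hp.ne_zero] at b0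
  have b2 : F.relIndex N = p := ((Nat.dvd_prime hp).1 (Dvd.intro_left _ b0)).resolve_left
    (mt Subgroup.relIndex_eq_one.1 nF)
  rw [b2, Nat.mul_eq_right hp.ne_zero] at b0
  rw [b0, mul_one] at ht
  have aF : ∀ a ∈ F, ∀ b ∈ F, a * b * a⁻¹ * b⁻¹ ∈ K := fun a ha b hb => h1 a (FN ha) b (FN hb)
  let G' : Subgroup G :=
    { carrier := {g | d.c g ∈ B}
      one_mem' := by simp [c_one]
      mul_mem' := fun {a b} ha hb => by
        show d.c (a * b) ∈ B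
        rw [d.hc]; exact B.add_mem ha (I.sta _ _ hb)
      inv_mem' := fun {a} ha => by
        have := c_div d a 1
        rw [mul_one, c_one, zero_sub] at this
        show d.c a⁻¹ ∈ B
        rw [this]; exact I.sta _ _ (B.neg_mem ha) }
  have uG : u ∈ G' := show d.c u ∈ B from hZ u hu ▸ B.zero_mem
  let R : G → G → Prop := fun v w => ∃ g ∈ G', ((g * v * g⁻¹ : G) : G ⧸ K) = w
  have Rt : ∀ {v w z}, R v w → R w z → R v z := fun ⟨g, hg, k⟩ ⟨g', hg', k'⟩ =>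
    ⟨g' * g, mul_mem hg' hg, by
      simp only [QuotientGroup.mk_mul, QuotientGroup.mk_inv] at k k' ⊢
      rw [← k', ← k]; group⟩
  have O : ∀ v ∈ N, v ∉ F → ∀ f ∈ F, R v (v * f) := fun v hv v0 f hf => by
    have c1 : v⁻¹ * u * v * u⁻¹ ∈ F := pr2 hp b2 (isP e he) (fun a ha b hb => KF (h1 a ha b hb))
      (fun u _ n hn => hN.conj_mem n hn u) (fun u hu n _ k => by
        simpa [mul_assoc] using mul_mem k (KF (((a1 n).1 k).2 u hu))) u hu v hv
    have c2 : v⁻¹ * u * v * u⁻¹ ∉ K := fun k => by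
      refine (pr1 (F := N ⊓ (Subgroup.centralizer {(u : G ⧸ K)}).comap (QuotientGroup.mk' K)) hp b2
        (fun f hf => ⟨hf.2, Subgroup.mem_centralizer_singleton_iff.2
          ((cz K _ _).1 (((a1 f).1 hf.1).2 u hu))⟩) inf_le_left).elim
        (fun l => v0 (l ⟨hv, Subgroup.mem_centralizer_singleton_iff.2 ((cz K _ _).1 k)⟩))
        fun l => H ((cz K _ _).2 (Subgroup.mem_centralizer_singleton_iff.1 (l hn0).2))
    obtain ⟨k, hk⟩ := gen hp ht aF c1 c2 f hf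
    refine ⟨u ^ k, pow_mem uG k, ?_⟩
    have c3 := (cz K _ _).1 (((a1 _).1 c1).2 u hu)
    rw [QuotientGroup.mk_mul K v, ← QuotientGroup.eq.2 hk]
    clear hk
    simp only [QuotientGroup.mk_mul, QuotientGroup.mk_inv, QuotientGroup.mk_pow] at c3 ⊢
    generalize (u : G ⧸ K) = x at *
    generalize (v : G ⧸ K) = z at *
    induction k with
    | zero => simp
    | succ k ih =>
      calc _ = x * (x ^ k * z * (x ^ k)⁻¹) * x⁻¹ := by rw [pow_succ']; group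
        _ = z * (z⁻¹ * x * z * x⁻¹) * (x * (z⁻¹ * x * z * x⁻¹) ^ k * x⁻¹) := by rw [ih]; group
        _ = _ := by rw [(c3.symm.pow_right k).mul_inv_cancel, pow_succ', mul_assoc]
  have od : ∀ g, ∃ w ∈ d.W, d.c w = d.c g ∧ (w⁻¹ * g) ^ d.N1 = 1 := fun g => by
    obtain ⟨w, hw, e1⟩ := d.hs (d.c g)
    exact ⟨w, hw, e1, d.hP _ (by rw [c_div, e1, sub_self, smul_zero])⟩
  have nG : ∀ g ∈ G', ∀ f ∈ F, g * f * g⁻¹ ∈ F := fun g hg f hf => by
    by_contra f0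
    have c1 : g⁻¹ * f * g ∉ F := fun k => by
      obtain ⟨i, hi⟩ := gen hp ht aF k (fun k' => f0 (KF (by
        simpa [mul_assoc] using hK.conj_mem _ (hK.conj_mem _ k' g) g))) f hf
      have := hK.conj_mem _ hi g
      rw [show g⁻¹ * f * g = g⁻¹ * f * g⁻¹⁻¹ by simp, conj_pow] at this
      exact f0 (by simpa [mul_assoc] using mul_mem (pow_mem hf i) (KF this))
    have c2 : ∀ f' ∈ F, g * f' * g⁻¹ ∉ F → R f (f * (g * f' * g⁻¹) * f⁻¹) := fun f' h' h0 => by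
      obtain ⟨s, hs, k⟩ := O _ (hN.conj_mem' f (FN hf) g) c1 f' h'
      refine Rt (w := f * (g * f' * g⁻¹)) ⟨g * s * g⁻¹, mul_mem (mul_mem hg hs) (inv_mem hg), ?_⟩
        (O _ (mul_mem (FN hf) (hN.conj_mem _ (FN h') g))
          (fun k => h0 ((mul_mem_cancel_left hf).1 k)) _ (inv_mem hf))
      simp only [QuotientGroup.mk_mul, QuotientGroup.mk_inv] at k ⊢
      calc _ = (g : G ⧸ K) * (s * ((g : G ⧸ K)⁻¹ * f * g) * (s : G ⧸ K)⁻¹) * (g : G ⧸ K)⁻¹ := by group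
        _ = _ := by rw [k]; group
    obtain ⟨s, hs, k⟩ := c2 f hf f0
    obtain ⟨s', hs', k'⟩ := c2 f⁻¹ (inv_mem hf) fun k => f0 (by simpa [mul_assoc] using inv_mem k)
    obtain ⟨w, hw, e1, e2⟩ := od (s' * s⁻¹)
    have c3 : ((w⁻¹ * (s' * s⁻¹) : G) : G ⧸ K) = (s' * s⁻¹ : G) := by
      rw [QuotientGroup.mk_mul, (QuotientGroup.eq_one_iff _).2
        (inv_mem ((I.iff w hw).1 (e1 ▸ mul_mem hs' (inv_mem hs)))), one_mul]
    have c4 := congrArg (fun g : G => (g : G ⧸ K)) e2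
    have c5 : (f * (g * f * g⁻¹) * f⁻¹) ^ 2 ∈ K := by
      rw [← QuotientGroup.eq_one_iff, QuotientGroup.mk_pow]
      have k2 : ((s' * s⁻¹ : G) : G ⧸ K) * (f * (g * f * g⁻¹) * f⁻¹ : G) * ((s' * s⁻¹ : G) : G ⧸ K)⁻¹ =
          ((f * (g * f * g⁻¹) * f⁻¹ : G) : G ⧸ K)⁻¹ := by
        rw [← QuotientGroup.mk_inv K (f * _ * _), show (f * (g * f * g⁻¹) * f⁻¹)⁻¹ =
          f * (g * f⁻¹ * g⁻¹) * f⁻¹ by group, ← k, ← k']
        simp only [QuotientGroup.mk_mul, QuotientGroup.mk_inv]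
        group
      simp only [QuotientGroup.mk_pow, c3, QuotientGroup.mk_one] at c4
      generalize ((s' * s⁻¹ : G) : G ⧸ K) = x at *
      generalize ((f * (g * f * g⁻¹) * f⁻¹ : G) : G ⧸ K) = z at *
      have k3 : Commute (x ^ 2) z := by
        have : x * z⁻¹ * x⁻¹ = z := by rw [← conj_inv, k2, inv_inv]
        rw [Commute, SemiconjBy, ← mul_inv_eq_iff_eq_mul]
        calc _ = x * (x * z * x⁻¹) * x⁻¹ := by rw [sq]; group
          _ = _ := by rw [k2, this]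
      obtain ⟨j, hj⟩ := ho
      rw [hj, pow_succ, pow_mul, mul_eq_one_iff_inv_eq] at c4
      rw [(c4 ▸ (k3.pow_left j).inv_left : Commute x z).mul_inv_cancel] at k2
      rw [sq, mul_eq_one_iff_eq_inv, ← k2]
    have c6 := KF (cop K ((Nat.coprime_primes Nat.prime_two hp).2 p2.symm) c5 (h2 _
      (hN.conj_mem _ (hN.conj_mem _ (FN hf) g) f)))
    exact f0 ((mul_mem_cancel_left hf).1 ((mul_mem_cancel_right (inv_mem hf)).1 c6))
  refine nF (min F ⟨fun f hf g => ?_⟩ ⟨KF, fun k => hp.one_lt.ne' (ht ▸ Subgroup.relIndex_eq_one.2 k)⟩ FN)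
  obtain ⟨w, hw, e1, -⟩ := od g
  have c1 := nG (w⁻¹ * g) (show d.c _ ∈ B by rw [c_div, e1, sub_self, smul_zero]; exact B.zero_mem) f hf
  rw [show g * f * g⁻¹ = w * (w⁻¹ * g * f * (w⁻¹ * g)⁻¹) * w⁻¹ by group]
  generalize w⁻¹ * g * f * (w⁻¹ * g)⁻¹ = f at c1
  refine (a1 _).2 ⟨hN.conj_mem _ (FN c1) w, fun u hu => (cz K _ _).2 ?_⟩
  obtain ⟨u', hu', w', hw', e2⟩ := hH _ (inv_mem hw) u hu
  have e3 : w⁻¹ * (u * w) = u' * (w' * w) := by rw [← mul_assoc, e2, mul_assoc]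
  have e4 : w' * w ∈ K := (I.iff _ (mul_mem hw' hw)).1 (by
    have e5 := congrArg d.c e3
    rw [c_div, d.hc u, d.hc u', hZ u hu, hZ u' hu', zero_add, zero_add, ← inv_smul_eq_iff] at e5
    rw [← e5]
    exact I.sta _ _ (I.sta _ _ (h3 u _)))
  have e6 : (u : G ⧸ K) = w * u' * (w : G ⧸ K)⁻¹ := by
    have := congrArg (fun g : G => (g : G ⧸ K)) e3
    simp only [QuotientGroup.mk_mul K u', (QuotientGroup.eq_one_iff _).2 e4, mul_one] at this
    rw [← this]; simp [mul_assoc]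
  rw [e6, QuotientGroup.mk_mul, QuotientGroup.mk_mul, QuotientGroup.mk_inv]
  exact ((cz K _ _).1 (((a1 f).1 c1).2 u' hu')).conj _

end Pool.Agent.P.MP_6d14ae_al.V
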