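import Pool.Agent.P.MP_6d14ae_al.V.Thr
import Pool.Agent.P.MP_6d14ae_al.T.Main

/-! Odd degrees with at most three prime factors. -/

set_option autoImplicit false

namespace Pool.Agent.P.MP_6d14ae_al.V

open MulAction J T
open S hiding Dat Lay c_one c_div facN ext_b triK next chi chi_one

theorem uni {G X : Type} [Group G] [MulAction G X] [IsPretransitive G X] {N : Subgroup G}
    (hN : N.Normal) (y t : X) : (DD N hN t).index = (DD N hN y).index := by
  obtain ⟨w, rfl⟩ := exists_smul_eq G y t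
  rw [← Subgroup.index_map_equiv (DD N hN y) (MulAut.conj w)]
  congr 1
  ext g
  refine ⟨fun k => ⟨w⁻¹ * g * w, by simpa using DD_conj hN w⁻¹ k, by simp [mul_assoc]⟩, ?_⟩
  rintro ⟨g, k, rfl⟩
  exact DD_conj hN w k

theorem uni2 {G X : Type} [Group G] [Finite G] [MulAction G X] [IsPretransitive G X]
    {K N : Subgroup G} (hK : K.Normal) (hN : N.Normal) (l : K ≤ N) (y t : X) :
    (DD K hK t).relIndex N = (DD K hK y).relIndex N :=
  Nat.eq_of_mul_eq_mul_right (Nat.pos_of_ne_zero (Subgroup.index_ne_zero_of_finite (H := DD N hN y)))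
    (by rw [fac2 hK hN l y, ← uni hN y t, fac2 hK hN l t, uni hK y t])

variable {G X E : Type} [Group G] [Finite G] [MulAction G X] [AddCommGroup E]
  [DistribMulAction G E] (κ : G ≃ E)
  (hκ : ∀ g h, κ (g * h) = κ g + g • κ h) (a : X → E) (ha : ∀ (g : G) x, a (g • x) = g • a x)
  (hg : AddSubgroup.closure (Set.range a) = ⊤)

include hκ ha hg

theorem mkd2 {N1 N2 : ℕ} (hG : Nat.card G = N1 * N2) (hc : N1.Coprime N2) :
    letI := S.tact (G := G) (E := E) N2
    ∃ d : Dat G X (tor E N2), d.N1 = N1 ∧ d.N2 = N2 ∧ d.W = sub κ hκ N2 ∧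
      (∀ g, κ g ∈ tor E N1 → d.c g = 0) ∧ ∀ g x, κ g = a x → d.c g = d.b x := by
  let _ := S.tact (G := G) (E := E) N2
  have hE : Nat.card E = N1 * N2 := (Nat.card_congr κ).symm.trans hG
  have h1 := (card_sub κ hκ hc hG).1
  have h2 := (card_sub κ hκ hc.symm (hG.trans (mul_comm _ _))).1
  obtain ⟨α, β, hαβ⟩ := Nat.isCoprime_iff_coprime.2 hc
  have hd : ∀ e : E, α • N1 • e + β • N2 • e = e := fun e => by
    rw [← natCast_zsmul, ← natCast_zsmul, ← mul_smul, ← mul_smul, ← add_smul, hαβ, one_smul]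
  have hk : ∀ e : E, N1 • N2 • e = 0 := fun e => by
    rw [← mul_nsmul', ← hE, card_nsmul_eq_zero']
  let pr : E →+ tor E N2 := ((zsmulAddGroupHom α : E →+ E).comp
    (nsmulAddMonoidHom N1 : E →+ E)).codRestrict _
    fun e => show N2 • α • N1 • e = 0 by rw [smul_comm, smul_comm N2, hk, smul_zero]
  have hp : ∀ v : tor E N2, pr v = v := fun v => Subtype.ext (by
    have := hd v.1
    rwa [mem_tor.1 v.2, smul_zero, add_zero] at this)
  have hs : ∀ (g : G) e, pr (g • e) = g • pr e := fun g e => Subtype.ext (by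
    show α • N1 • g • e = g • α • N1 • e
    rw [smul_comm g, smul_comm g])
  refine ⟨{ c := fun g => pr (κ g), W := sub κ hκ N2, N1 := N1, N2 := N2, b := fun x => pr (a x)
            hc := fun g h => by rw [hκ, map_add, hs]
            hs := fun v => ⟨κ.symm v, show κ _ ∈ tor E N2 by simp, by simp [hp]⟩
            hW := fun w hw => congrArg Subtype.val
              (h2 ▸ pow_card_eq_one' (x := (⟨w, hw⟩ : sub κ hκ N2)))
            hP := fun g e => congrArg Subtype.val (h1 ▸ pow_card_eq_one'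
              (x := (⟨g, show N1 • κ g = 0 by
                rw [← hd (κ g), show α • N1 • κ g = 0 from congrArg Subtype.val e, zero_add,
                  smul_comm, hk, smul_zero]⟩ : sub κ hκ N1)))
            hco := hc
            hb := fun g x => by rw [ha, hs]
            hg := by
              rw [show (fun x => pr (a x)) = pr ∘ a from rfl, Set.range_comp,
                ← AddMonoidHom.map_closure, hg]
              exact AddSubgroup.map_top_of_surjective _ fun v => ⟨v, hp v⟩ },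
    rfl, rfl, rfl, fun g h => Subtype.ext ?_, fun g x h => congrArg pr h⟩
  show α • N1 • κ g = 0
  rw [mem_tor.1 h, smul_zero]

theorem small [FaithfulSMul G X] [IsPretransitive G X] {q m : ℕ} (hq : q.Prime) (q2 : q ≠ 2)
    (hm : m = 1 ∨ m.Prime) (hqm : ¬q ∣ m) (ho : ¬2 ∣ m) (hX : Nat.card X = q ^ 2 * m)
    (h1 : 2 ∣ Nat.card G)
    (hc : m ≠ 1 → ∃ (x y : X) (g : G) (k : ℕ), κ g = a x ∧ g ^ k • y = y ∧ ¬m ∣ k) : False := by
  have := solv κ hκ
  have hr := Nat.prime_two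
  have sp : ∀ q : ℕ, q.Prime → ∃ j N, Nat.card G = N * q ^ j ∧ N.Coprime q := fun q hq => by
    obtain ⟨j, N, k1, k2⟩ :=
      Nat.exists_eq_pow_mul_and_not_dvd (Nat.card_pos (α := G)).ne' q hq.one_lt.ne'
    exact ⟨j, N, k2.trans (mul_comm _ _), (hq.coprime_iff_not_dvd.2 k1).symm⟩
  have o1 : ¬2 ∣ q := fun h => q2 ((Nat.prime_dvd_prime_iff_eq hr hq).1 h).symm
  have h2 : ¬2 ∣ Nat.card X := fun h => by
    rw [hX, hr.dvd_mul] at h
    exact h.elim (fun k => o1 (hr.dvd_of_dvd_pow k)) ho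
  have m2 : m.Prime → ¬m ^ 2 ∣ Nat.card X := fun h k => by
    rw [hX, sq, Nat.mul_dvd_mul_iff_right h.pos] at k
    exact hqm ((Nat.prime_dvd_prime_iff_eq h hq).1 (h.dvd_of_dvd_pow k) ▸ dvd_rfl)
  have hT : (∀ (M : Subgroup G) (hM : M.Normal) (y : X), (DD M hM y).index = m → m = 1) ∧
      ∀ (K L : Subgroup G) (hK : K.Normal), L.Normal →
      (∀ g : G, (∀ y : X, ∃ k ∈ K, g • y = k • y) → g ∈ K) → K ≤ L → ∀ t, t ∣ m →
      (∀ y : X, (DD K hK y).relIndex L = t) →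
      ∀ a ∈ L, a ^ t ∈ K ∧ ∀ b ∈ L, a * b * a⁻¹ * b⁻¹ ∈ K := by
    have k0 : ∀ (K L : Subgroup G) (hK : K.Normal),
        (∀ g : G, (∀ y : X, ∃ k ∈ K, g • y = k • y) → g ∈ K) →
        (∀ y : X, (DD K hK y).relIndex L = 1) →
        ∀ a ∈ L, a ^ 1 ∈ K ∧ ∀ b ∈ L, a * b * a⁻¹ * b⁻¹ ∈ K := fun K L hK clo h a ha =>
      have l : L ≤ K := fun g k => clo g fun y => Subgroup.relIndex_eq_one.1 (h y) k
      ⟨l (pow_mem ha 1), fun b hb => l (mul_mem (mul_mem (mul_mem ha hb) (inv_mem ha)) (inv_mem hb))⟩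
    rcases hm with rfl | hm
    · exact ⟨fun _ _ _ _ => rfl, fun K L hK _ clo _ t ht => by
        obtain rfl := Nat.dvd_one.1 ht
        exact k0 K L hK clo⟩
    obtain ⟨j, L, hL, cL⟩ := sp m hm
    let _ := S.tact (G := G) (E := E) (m ^ j)
    obtain ⟨e, e1, e2, -, -, e4⟩ := mkd2 κ hκ a ha hg hL (cL.pow_right j)
    obtain ⟨x, y, g, k, c1, c2, c3⟩ := hc hm.one_lt.ne'
    refine ⟨fun M hM z h => (c3 (T0 e hm e2 (e1 ▸ cL) (fun v => Subtype.ext v.2) (m2 hm) hM h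
      (e4 g x c1) c2)).elim, fun K L hK hL' clo l t ht => ?_⟩
    rcases (Nat.dvd_prime hm).1 ht with rfl | rfl
    · exact k0 K L hK clo
    · exact top e hm e2 (e1 ▸ cL) (fun v => Subtype.ext v.2) (m2 hm) hK hL' clo l
  obtain ⟨hT, TOP⟩ := hT
  have z1 : ∀ (M : Subgroup G) (hM : M.Normal) (y : X), (DD M hM y).index ∣ m →
      (DD M hM y).index = 1 := fun M hM y h => by
    rcases hm with rfl | hm
    · exact Nat.dvd_one.1 h
    · exact ((Nat.dvd_prime hm).1 h).elim id fun k => k.trans (hT M hM y k)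
  obtain ⟨b, M, hM, cM⟩ := sp 2 hr
  let _ := S.tact (G := G) (E := E) (2 ^ b)
  obtain ⟨d, d1, d2, d3, d4⟩ := mkd κ hκ a ha hg hM (cM.pow_right b)
  obtain ⟨K, N, B, p, hN, I, hp, pn, k1, k2, k3, k4, k5, k6, k7⟩ := find (d := d)
    (by rw [d2]; exact (hr.coprime_iff_not_dvd.2 h2).pow_left b) ⊥ ⊥ (lay_bot d) fun h => by
      have := (card_sub κ hκ (cM.pow_right b).symm (hM.trans (mul_comm _ _))).1
      rw [← d3, le_bot_iff.1 h, Subgroup.card_bot] at this
      rw [hM, ← this, mul_one] at h1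
      exact hr.one_lt.ne' (Nat.eq_one_of_dvd_coprimes cM h1 dvd_rfl)
  have hrp : 2 ≠ p := fun e => h2 (e ▸ pn)
  obtain ⟨j, L, hL, cL⟩ := sp p hp
  let _ := S.tact (G := G) (E := E) (p ^ j)
  obtain ⟨e, e1, e2, e3, -⟩ := mkd κ hκ a ha hg hL (cL.pow_right j)
  have hZ : ∀ u ∈ e.W, d.c u = 0 := fun u hu => d4 u (by
    obtain ⟨t, ht⟩ := (Nat.coprime_pow_primes j b hp hr hrp.symm).dvd_of_dvd_mul_right
      (hM ▸ hL ▸ dvd_mul_left _ _)
    rw [e3] at hu
    rw [mem_tor, ht, mul_nsmul, show p ^ j • κ u = 0 from hu, smul_zero])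
  have hC : ∀ v : tor E (p ^ j), p ^ j • v = 0 := fun v => Subtype.ext v.2
  rw [← e1] at cL
  obtain rfl : p = q := by
    by_contra k
    rw [hX, hp.dvd_mul] at pn
    have := pn.resolve_left fun h => k ((Nat.prime_dvd_prime_iff_eq hp hq).1 (hp.dvd_of_dvd_pow h))
    obtain rfl : p = m := hm.elim (fun h => (hp.one_lt.ne' (Nat.dvd_one.1 (h ▸ this))).elim)
      fun h => (Nat.prime_dvd_prime_iff_eq hp h).1 this
    refine core d e hr hp hrp d2 e2 cL hC (fun i h0 h => (m2 hp ((pow_dvd_pow p (by omega)).trans h)).elim)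
      hZ (fun g => ?_) hN I k1 k2 k3 k4 k5 k6 k7
    rw [d3, e3]
    exact ⟨fun ⟨w, hw, u, hu, h⟩ => h ▸ swap κ hκ hw hu, fun ⟨u, hu, w, hw, h⟩ => h ▸ swap κ hκ hu hw⟩
  have hK := I.nor
  have cp : (2 ^ b).Coprime p := ((Nat.coprime_primes hr hp).2 hrp).pow_left b
  have ex : ∀ w ∈ d.W, (∀ n ∈ N, n⁻¹ * w * n * w⁻¹ ∈ K) → w ∈ K := fun w hw h =>
    inK hK hN I.clo k3 cp (k6 hw) (d2 ▸ d.hW w hw) fun y n hn => le_DD K hK y (h n hn)
  have ex2 : ∃ ρ ∈ KK X N hN, ∃ n ∈ N, n⁻¹ * ρ * n * ρ⁻¹ ∉ K := by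
    by_contra! h
    exact k7 fun w hw => ex w hw (h w (k6 hw))
  obtain ⟨y, -⟩ := qd hK I.clo k1 hp k2 k3
  obtain ⟨i, hi⟩ := lay hK hN I.clo k1 hp k2 k3 y
  have hV := fun t => (uni2 hK hN k1.le y t).trans hi
  have fc := fun t => hX.symm.trans (fac hK hN k1.le t)
  simp only [hV, uni hN y] at fc
  have UP := fun h : ∀ t, ¬p ∣ (stabilizer G t).relIndex (DD K hK t) => up (d := e) hK I.clo
    (fun t => by rw [e2]; exact (hp.coprime_iff_not_dvd.2 (h t)).pow_left j) ⊥ ⊥ (lay_bot e) bot_le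
  have TW := two e hp e2 cL hC hm hqm hT hN y
  rcases i with _ | _ | i
  · simp only [zero_add, pow_one] at fc hV
    have f1 : ∀ t, p * m = (stabilizer G t).relIndex (DD K hK t) * (DD N hN y).index := fun t =>
      Nat.eq_of_mul_eq_mul_left hp.pos (by linear_combination fc t)
    have EN := fun B' J => TW (f1 y ▸ dvd_mul_left _ _)
      (mid1 e hp e2 cL hC (B' := B') hK hN J k1 k2 k3 k4 ex2 hV)
    by_cases h : p ∣ (DD N hN y).index
    · obtain ⟨B', J⟩ := UP fun t k => hqm ((Nat.mul_dvd_mul_iff_left hp.pos).1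
        (by rw [f1 t]; exact mul_dvd_mul k h))
      exact EN B' J
    have f2 := z1 N hN y ((hp.coprime_iff_not_dvd.2 h).symm.dvd_of_dvd_mul_left
      (f1 y ▸ dvd_mul_left _ _))
    have iN := (ridx hK I.clo k1.le k2 (tra hN f2 y)).trans (hV y)
    rcases up2 hK I.clo e hp e2 ⊥ ⊥ (lay_bot e) bot_le with ⟨B', J⟩ | ⟨K0, N0, B0, J, hN0, l0, l1, g1, g2, nt⟩
    · exact EN B' J
    have hL0 := KK_normal (X := X) N0 hN0
    have c1 : ∀ t, DD (KK X N0 hN0) hL0 t = DD N0 hN0 t := fun t => le_antisymm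
      (fun g ⟨k, hk, e⟩ => e ▸ mem_KK.1 hk t)
      (DD_mono hN0 hL0 (fun n hn => mem_KK.2 fun y => ⟨n, hn, rfl⟩) t)
    have clo : ∀ g : G, (∀ t : X, ∃ k ∈ KK X N0 hN0, g • t = k • t) → g ∈ KK X N0 hN0 :=
      fun g hg => mem_KK.2 fun t => (c1 t).le (hg t)
    have LK : KK X N0 hN0 ≤ K := fun g hg => I.clo g fun y =>
      let ⟨n, hn, e⟩ := mem_KK.1 hg y; ⟨n, l1 hn, e⟩
    obtain ⟨i, hi0⟩ := lay J.nor hN0 J.clo l0 hp g1 g2 y
    have c2 := fac2 hL0 hK LK y
    rw [← fac2 hK hN k1.le y, hV, f2, mul_one] at c2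
    have c3 := fac J.nor hN0 l0.le y
    rw [hX, hi0, ← c1, ← c2] at c3
    have c4 : p ^ i * (DD (KK X N0 hN0) hL0 y).relIndex K ∣ m :=
      ⟨(stabilizer G y).relIndex (DD K0 J.nor y), Nat.eq_of_mul_eq_mul_left (pow_pos hp.pos 2) (by
        rw [c3]; ring)⟩
    rcases i with _ | i
    swap
    · exact hqm (((dvd_pow_self p i.succ_ne_zero).mul_right _).trans c4)
    rw [pow_zero, one_mul] at c4
    have iK := uni2 hL0 hK LK y
    have ab := TOP _ K hL0 hK clo LK _ c4 iK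
    generalize (DD (KK X N0 hN0) hL0 y).relIndex K = t at c2 c4 iK ab
    have tp : ¬p ∣ t := fun h => hqm (h.trans c4)
    obtain ⟨w, hw, w0⟩ := SetLike.not_le_iff_exists.1 k7
    obtain ⟨s, s0, s1⟩ : ∃ s, w ^ 2 ^ s ∉ K ∧ (w ^ 2 ^ s) ^ 2 ∈ K := by
      by_contra! h
      have : ∀ s, w ^ 2 ^ s ∉ K := fun s => by
        induction s with
        | zero => simpa using w0
        | succ s ih => rw [pow_succ, pow_mul]; exact h s ih
      exact this b (d2 ▸ d.hW w hw ▸ K.one_mem)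
    have sW := pow_mem hw (2 ^ s)
    generalize w ^ 2 ^ s = u at s0 s1 sW
    refine three e hp e2 cL hC q2 hK hN k2 k3 iN
      (PleN hK I.clo k1.le k2 (tra hN f2 y) hN hp iN (isP e e2)) J hN0 g1 g2
      (fun z => (uni2 J.nor hN0 l0.le y z).trans (hi0.trans (pow_one p))) nt
      (fun v hv k => cop _ ((hp.coprime_iff_not_dvd.2 tp).pow_left j) (e2 ▸ e.hW v hv ▸ one_mem _)
        (ab v k).1)
      (swp hL0 hK hN clo LK k1.le hp q2 tp k2 k3 (tra hN f2) iN iK
        (fun z => by rw [uni hL0 y z, ← c2, mul_comm]) ab (fun M hM z h => ?_) ?_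
        (fun h => (hr.dvd_mul.1 h).elim o1 fun k => ho (k.trans c4)) (fun n hn => ?_) s1
        (d2 ▸ d.hW u sW))
    · exact h ▸ z1 M hM z (h ▸ c4)
    · rcases hm with rfl | hm
      · exact .inl (Nat.dvd_one.1 c4)
      · exact ((Nat.dvd_prime hm).1 c4).imp id fun k : t = m => k ▸ hm
    · refine (pr1 (F := N ⊓ (Subgroup.centralizer {(u : G ⧸ K)}).comap (QuotientGroup.mk' K)) hp iN
        (fun k h => ⟨h.2, Subgroup.mem_centralizer_singleton_iff.2 (by
          simp [(QuotientGroup.eq_one_iff k).2 h.1])⟩) inf_le_left).resolve_right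
        (fun l => s0 (ex u sW fun n hn => (cz K _ _).2
          (Subgroup.mem_centralizer_singleton_iff.1 (l hn).2)))
        ⟨mul_mem (hN.conj_mem n hn u) hn, Subgroup.mem_centralizer_singleton_iff.2 ?_⟩
      have a1 := (cz K _ _).1 (by simpa using k2 _ (inv_mem hn) _ (hN.conj_mem n hn u) :
        n⁻¹ * (u * n * u⁻¹) * n * (u * n * u⁻¹)⁻¹ ∈ K)
      have a2 := (QuotientGroup.eq_one_iff _).2 s1
      rw [QuotientGroup.mk'_apply, QuotientGroup.mk_mul K _ n]
      nth_rw 1 [← a1.eq]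
      simp only [QuotientGroup.mk_mul, QuotientGroup.mk_inv, QuotientGroup.mk_pow] at a2 ⊢
      calc _ = (u : G ⧸ K) ^ 2 * n * ((u : G ⧸ K) ^ 2)⁻¹ * u * n := by rw [a2]; group
        _ = _ := by rw [sq]; group
  · have f1 : ∀ t, m = (stabilizer G t).relIndex (DD K hK t) * (DD N hN y).index := fun t =>
      Nat.eq_of_mul_eq_mul_left (pow_pos hp.pos 2) (by linear_combination fc t)
    have f2 := z1 N hN y (f1 y ▸ dvd_mul_left _ _)
    obtain ⟨B', J⟩ := UP fun t k => hqm (f1 t ▸ k.mul_right _)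
    have hL : ∀ g, g ∈ KK X N hN := fun g => mem_KK.2 fun t => tra hN f2 t _
    refine TW (f2 ▸ one_dvd _) (mid e hp e2 cL hC hK hN J k1 k3 k4 ex2 (fun t F a1 a2 a3 => ?_)
      fun U l _ u hu => one e hp e2 d (by rw [d1]; exact Nat.coprime_two_right.1 cM) q2 hZ
        (fun w hw u hu => ?_) hN I k1.le k2 k3 k4 (fun g => k5 g (hL g))
        ((ridx hK I.clo k1.le k2 (tra hN f2 y)).trans (hV y)) u (l hu))
    · rcases ((le_inf (le_DD K hK t) k1.le).trans a1).eq_or_lt with rfl | h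
      · exact .inl (le_DD K hK t)
      · exact .inr (k4 F ⟨fun n hn g => a3 g (hL g) n hn⟩ h a2)
    · rw [d3] at hw ⊢
      rw [e3] at hu ⊢
      exact swap κ hκ hw hu
  · exact hqm ⟨(stabilizer G y).relIndex (DD K hK y) * p ^ i * (DD N hN y).index,
      Nat.eq_of_mul_eq_mul_left (pow_pos hp.pos 2) (by rw [fc y]; ring)⟩

end Pool.Agent.P.MP_6d14ae_al.V
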