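import Pool.Agent.P.MP_6d14ae_al.V.One

/-! Every pair of blocks is swapped or fixed by an element that inverts the top layer. -/

set_option autoImplicit false

namespace Pool.Agent.P.MP_6d14ae_al.V

open MulAction T
open S hiding Dat Lay c_one c_div facN ext_b triK next chi chi_one

variable {G X : Type} [Group G] [Finite G] [MulAction G X] [IsPretransitive G X]
  {L K N : Subgroup G} (hL : L.Normal) (hK : K.Normal) (hN : N.Normal)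
  (clo : ∀ g : G, (∀ y : X, ∃ k ∈ L, g • y = k • y) → g ∈ L) (LK : L ≤ K) (KN : K ≤ N)
  {p m : ℕ} (hp : p.Prime) (p2 : p ≠ 2) (hpm : ¬p ∣ m)
  (h1 : ∀ a ∈ N, ∀ b ∈ N, a * b * a⁻¹ * b⁻¹ ∈ K) (h2 : ∀ a ∈ N, a ^ p ∈ K)
  (tr : ∀ s t : X, ∃ n ∈ N, t = n • s) (iN : K.relIndex N = p)
  (iK : ∀ y : X, (DD L hL y).relIndex K = m) (iL : ∀ y : X, (DD L hL y).index = p * m)
  (ab : ∀ a ∈ K, a ^ m ∈ L ∧ ∀ b ∈ K, a * b * a⁻¹ * b⁻¹ ∈ L)
  (hT : ∀ (M : Subgroup G) (hM : M.Normal) (y : X), (DD M hM y).index = m → m = 1)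

include hK hN clo LK KN hp p2 hpm h1 h2 tr iN iK iL ab hT

theorem dif (hm : m.Prime) {j n : G} (hj : ∀ n ∈ N, j * n * j⁻¹ * n ∈ K) (hn : n ∈ N) (n0 : n ∉ K)
    (s : X) : ¬∀ φ ∈ K, φ ∈ DD L hL (n • s) → φ ∈ DD L hL s := fun H => by
  have nD : ¬K ≤ DD L hL s := fun k => hm.one_lt.ne' (iK s ▸ Subgroup.relIndex_eq_one.2 k)
  have a1 := (pr1 (F := DD L hL s ⊓ K) hm (iK (n • s)) (fun φ h => ⟨H φ h.2 h.1, h.2⟩)
    inf_le_right).resolve_right fun k => nD (k.trans inf_le_left)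
  have a2 : ∀ φ ∈ DD L hL s ⊓ K, ∀ i : ℕ, (n ^ i)⁻¹ * φ * n ^ i ∈ DD L hL s ⊓ K := fun φ h i => by
    induction i with
    | zero => simpa using h
    | succ i ih =>
      refine ⟨?_, hK.conj_mem' φ h.2 _⟩
      simpa [pow_succ, mul_assoc] using DD_conj hL n⁻¹ (a1 ih)
  have a3 : DD L hL s ⊓ K = L := le_antisymm (fun φ h => clo φ fun y => by
    obtain ⟨n', hn', rfl⟩ := tr s y
    obtain ⟨i, hi⟩ := gen hp iN h1 hn n0 n' hn'
    have := DD_conj hL n' (mul_mem (le_DD L hL s ((ab _ (inv_mem hi)).2 _ (a2 φ h i).2)) (a2 φ h i).1)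
    rwa [show n' * (((n ^ i)⁻¹ * n')⁻¹ * ((n ^ i)⁻¹ * φ * n ^ i) * ((n ^ i)⁻¹ * n')⁻¹⁻¹ *
      ((n ^ i)⁻¹ * φ * n ^ i)⁻¹ * ((n ^ i)⁻¹ * φ * n ^ i)) * n'⁻¹ = φ by group] at this)
    (le_inf (le_DD L hL s) LK)
  have a4 : L.relIndex K = m := by rw [← iK s, ← Subgroup.inf_relIndex_right (DD L hL s), a3]
  obtain ⟨k0, hk0, k1⟩ := SetLike.not_le_iff_exists.1 nD
  have a5 : ∀ k ∈ K, ∃ i : ℕ, (k0 : G ⧸ L) ^ i = k := fun k hk =>
    (gen hm a4 (fun a ha => (ab a ha).2) hk0 (fun h => k1 (le_DD L hL s h)) k hk).imp fun i h =>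
      (QuotientGroup.mk_pow L k0 i).symm.trans (QuotientGroup.eq.2 h)
  have a6 : ∀ g ∈ N, ∀ k ∈ K, Commute (g : G ⧸ L) k := by
    refine (pr1 (F := N ⊓ (Subgroup.centralizer {(k0 : G ⧸ L)}).comap (QuotientGroup.mk' L)) hp iN
      (fun k h => ⟨h.2, Subgroup.mem_centralizer_singleton_iff.2 ((cz L _ _).1 (by
        simpa using (ab _ (inv_mem h.1)).2 k0 hk0))⟩) inf_le_left).elim (fun l => (n0 ?_).elim)
      fun l g hg k hk => ?_
    · have b1 : j⁻¹ * n⁻¹ * j * n ∈ K := l ⟨mul_mem (hN.conj_mem' _ (inv_mem hn) j) hn,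
        Subgroup.mem_centralizer_singleton_iff.2 (by
          obtain ⟨a, ha⟩ := a5 _ (hK.conj_mem k0 hk0 n)
          obtain ⟨b, hb⟩ := a5 _ (hK.conj_mem k0 hk0 j)
          simp only [QuotientGroup.mk_mul, QuotientGroup.mk_inv, QuotientGroup.mk'_apply] at ha hb ⊢
          generalize (k0 : G ⧸ L) = z at *
          generalize (n : G ⧸ L) = x at *
          generalize (j : G ⧸ L) = y at *
          have : y * (x * z * x⁻¹) * y⁻¹ = x * (y * z * y⁻¹) * x⁻¹ := by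
            rw [← ha, ← hb, ← conj_pow, ← conj_pow, ← ha, ← hb, ← pow_mul, ← pow_mul, mul_comm]
          calc _ = y⁻¹ * x⁻¹ * (y * (x * z * x⁻¹) * y⁻¹) * y * x := by group
            _ = _ := by rw [this]; group)⟩
      have b2 := hj _ (hN.conj_mem' _ (inv_mem hn) j)
      refine cop K ((Nat.coprime_primes Nat.prime_two hp).2 p2.symm) ?_ (h2 n hn)
      simpa [sq, mul_assoc] using hK.conj_mem _ (mul_mem (inv_mem b2) (hK.conj_mem' _ b1 n⁻¹)) (j⁻¹ * n * j)⁻¹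
    · obtain ⟨i, hi⟩ := a5 k hk
      exact hi ▸ Commute.pow_right (Subgroup.mem_centralizer_singleton_iff.1 (l hg).2) i
  have a7 : ∀ a ∈ N, ∀ b ∈ N, Commute (a : G ⧸ L) b := fun a ha b hb => by
    obtain ⟨i, hi⟩ := gen hp iN h1 hn n0 a ha
    obtain ⟨i', hi'⟩ := gen hp iN h1 hn n0 b hb
    rw [← mul_inv_cancel_left (n ^ i) a, ← mul_inv_cancel_left (n ^ i') b, QuotientGroup.mk_mul,
      QuotientGroup.mk_mul L (n ^ i')]
    refine ((Commute.mul_right ?_ (a6 _ (pow_mem hn i) _ hi')).mul_left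
      ((a6 _ (pow_mem hn i') _ hi).symm.mul_right (a6 _ (KN hi) _ hi')))
    simp
  let M : Subgroup G :=
    { carrier := {g | g ∈ N ∧ g ^ p ∈ L}
      one_mem' := ⟨one_mem _, by simp⟩
      mul_mem' := fun {a b} ha hb => ⟨mul_mem ha.1 hb.1, by
        rw [← QuotientGroup.eq_one_iff, QuotientGroup.mk_pow, QuotientGroup.mk_mul,
          (a7 a ha.1 b hb.1).mul_pow, ← QuotientGroup.mk_pow, ← QuotientGroup.mk_pow,
          (QuotientGroup.eq_one_iff _).2 ha.2, (QuotientGroup.eq_one_iff _).2 hb.2, mul_one]⟩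
      inv_mem' := fun {a} ha => ⟨inv_mem ha.1, by rw [inv_pow]; exact inv_mem ha.2⟩ }
  have hM : M.Normal := ⟨fun a ha g => ⟨hN.conj_mem a ha.1 g, by
    rw [conj_pow]; exact hL.conj_mem _ ha.2 g⟩⟩
  have lM : L < M := ⟨fun l h => ⟨KN (LK h), pow_mem h p⟩, fun k => n0 (cop K
    (hp.coprime_iff_not_dvd.2 hpm) (h2 n hn) (LK (k (show n ^ m ∈ M from ⟨pow_mem hn m, by
      rw [← pow_mul, mul_comm, pow_mul]; exact (ab _ (h2 n hn)).1⟩))))⟩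
  obtain ⟨i, hi⟩ := lay hL hM clo lM hp (fun a ha b hb => by
    simpa using (cz L a⁻¹ b).2 (by simpa using a7 a ha.1 b hb.1)) (fun a ha => ha.2) s
  have a8 := fac2 hL hM lM.le s
  rw [hi, iL, pow_succ', mul_assoc, Nat.mul_right_inj hp.ne_zero] at a8
  rcases i with _ | i
  · exact hm.one_lt.ne' (hT M hM s (by simpa using a8))
  · exact hpm (a8 ▸ (dvd_pow_self p i.succ_ne_zero).mul_right _)

theorem swp (hm : m = 1 ∨ m.Prime) (ho : ¬2 ∣ p * m) {j0 : G} {b : ℕ}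
    (hj0 : ∀ n ∈ N, j0 * n * j0⁻¹ * n ∈ K) (e1 : j0 ^ 2 ∈ K) (e2 : j0 ^ 2 ^ b = 1) (s t : X) :
    ∃ g : G, (∀ n ∈ N, g * n * g⁻¹ * n ∈ K) ∧ (((∃ l ∈ L, g • s = l • t) ∧ ∃ l ∈ L, g • t = l • s) ∨
      ((∃ l ∈ L, g • s = l • s) ∧ ∃ l ∈ L, g • t = l • t)) := by
  obtain ⟨j, hj, jD, j2⟩ : ∃ j : G, (∀ n ∈ N, j * n * j⁻¹ * n ∈ K) ∧ j ∈ DD L hL s ∧ j ^ 2 ∈ L := by
    obtain ⟨x, hx⟩ := fixb (U := Subgroup.zpowers j0) Nat.prime_two (fun u => ⟨b, Subtype.ext (by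
      obtain ⟨_, i, rfl⟩ := u
      show (j0 ^ i) ^ 2 ^ b = 1
      rw [← zpow_natCast, zpow_comm, zpow_natCast, e2, one_zpow])⟩) hL s (iL s ▸ ho)
    obtain ⟨g, rfl⟩ := exists_smul_eq G x s
    refine ⟨g * j0 * g⁻¹, fun n hn => ?_, DD_conj hL g (hx (Subgroup.mem_zpowers j0)), ?_⟩
    · simpa [mul_assoc] using hK.conj_mem _ (hj0 _ (hN.conj_mem' n hn g)) g
    · rw [conj_pow]
      refine hL.conj_mem _ (cop L (b := 2 ^ b) ((Nat.prime_two.coprime_iff_not_dvd.2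
        fun k => ho (k.mul_left p)).symm.pow_right b) (ab _ e1).1 ?_) g
      rw [← pow_mul, mul_comm, pow_mul, e2, one_pow]
      exact L.one_mem
  have im : ∀ a ∈ N, ∀ n ∈ N, a * j * n * (a * j)⁻¹ * n ∈ K := fun a ha n hn => by
    simpa [mul_assoc] using mul_mem (h1 a ha _ (hN.conj_mem n hn j)) (hj n hn)
  have pm : ∀ k ∈ K, k ∉ DD L hL s → m.Prime := fun k hk k0 => hm.resolve_left fun e =>
    k0 (Subgroup.relIndex_eq_one.1 ((iK s).trans e) hk)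
  have aD : ∀ a ∈ K, ∀ b ∈ K, a * b * a⁻¹ * b⁻¹ ∈ DD L hL s :=
    fun a ha b hb => le_DD L hL s ((ab a ha).2 b hb)
  obtain ⟨n, hn, rfl⟩ := tr s t
  have fin : ∀ φ ∈ K, φ ∈ DD L hL (n • s) → φ * (n * (j * n * j⁻¹)) ∈ DD L hL s →
      (∃ l ∈ L, (φ * n * j) • s = l • n • s) ∧ ∃ l ∈ L, (φ * n * j) • n • s = l • s :=
    fun φ _ a1 a2 => ⟨by
      obtain ⟨l, hl, e⟩ := mul_mem a1 (DD_conj hL n jD)
      exact ⟨l, hl, by simpa [mul_smul] using e⟩, by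
      obtain ⟨l, hl, e⟩ := mul_mem a2 jD
      exact ⟨l, hl, by simpa [mul_smul] using e⟩⟩
  by_cases k2 : n * (j * n * j⁻¹) ∈ DD L hL s
  · exact ⟨_, im _ (mul_mem (one_mem N) hn), .inl (fin 1 (one_mem _) (one_mem _) (by simpa using k2))⟩
  have k3 : n * (j * n * j⁻¹) ∈ K := by simpa [mul_assoc] using hK.conj_mem _ (hj n hn) n
  have hm' := pm _ k3 k2
  by_cases n0 : n ∈ K
  · refine ⟨j, hj, .inr ⟨jD, ?_⟩⟩
    obtain ⟨i, hi⟩ := gen hm' (iK s) aD k3 k2 n n0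
    have c1 : ((j * (n * (j * n * j⁻¹)) ^ i * j⁻¹ : G) : G ⧸ L) = ((n * (j * n * j⁻¹)) ^ i : G) := by
      have c2 := (cz L _ _).1 (by simpa using (ab _ (inv_mem n0)).2 _ (hK.conj_mem n n0 j) :
        n⁻¹ * (j * n * j⁻¹) * n * (j * n * j⁻¹)⁻¹ ∈ L)
      have c3 := (QuotientGroup.eq_one_iff _).2 j2
      rw [← conj_pow, QuotientGroup.mk_pow, QuotientGroup.mk_pow]
      congr 1
      rw [QuotientGroup.mk_mul L n, c2.eq]
      simp only [QuotientGroup.mk_mul, QuotientGroup.mk_inv, QuotientGroup.mk_pow] at c3 ⊢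
      calc _ = (j : G ⧸ L) * n * (j : G ⧸ L)⁻¹ * ((j : G ⧸ L) ^ 2 * n * ((j : G ⧸ L) ^ 2)⁻¹) := by
            rw [sq]; group
        _ = _ := by rw [c3]; group
    obtain ⟨l, hl, e⟩ := DD_conj hL n (mul_mem (mul_mem (mul_mem (inv_mem hi)
      (le_DD L hL s (QuotientGroup.eq.1 c1.symm))) jD) hi)
    exact ⟨l, hl, e ▸ by simp [mul_smul]⟩
  · have := dif hL hK hN clo LK KN hp p2 hpm h1 h2 tr iN iK iL ab hT hm' hj hn n0 s
    push Not at this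
    obtain ⟨φ, a1, a2, a3⟩ := this
    obtain ⟨i, hi⟩ := gen hm' (iK s) aD a1 a3 _ k3
    exact ⟨_, im _ (mul_mem (KN (inv_mem (pow_mem a1 i))) hn),
      .inl (fin _ (inv_mem (pow_mem a1 i)) (inv_mem (pow_mem a2 i)) hi)⟩

end Pool.Agent.P.MP_6d14ae_al.V
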