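import Pool.Agent.P.MP_6d14ae_al.V.Swp

/-! A lower layer of the same prime order cannot feed an inverted top layer. -/

set_option autoImplicit false

namespace Pool.Agent.P.MP_6d14ae_al.V

open MulAction T
open S hiding Dat Lay c_one c_div facN ext_b triK next chi chi_one

variable {G X C : Type} [Group G] [Finite G] [MulAction G X] [AddCommGroup C]
  [DistribMulAction G C] {K N : Subgroup G} (e : Dat G X C) {p a : ℕ} (hp : p.Prime)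
  (he : e.N2 = p ^ a) (hpN : e.N1.Coprime p) (hC : ∀ v : C, p ^ a • v = 0) (p2 : p ≠ 2)
  (hK : K.Normal) (hN : N.Normal) (h1 : ∀ a ∈ N, ∀ b ∈ N, a * b * a⁻¹ * b⁻¹ ∈ K)
  (h2 : ∀ a ∈ N, a ^ p ∈ K) (iN : K.relIndex N = p) (PN : e.W ≤ N)

include hp he hpN hC hK hN h1 h2 iN PN

omit [Finite G] he hC in
theorem neg {D Y : AddSubgroup C} (hD : ∀ (g : G) v, v ∈ D → g • v ∈ D)
    (hY : ∀ (g : G) v, v ∈ Y → g • v ∈ Y) (l : D ≤ Y)
    (k1 : ∀ u ∈ e.W, e.c u ∈ Y → u ∈ K → e.c u ∈ D) {v : C} (v0 : v ∉ D) (v1 : v ∈ Y)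
    (hv : ∀ u ∈ e.W, u • v - v ∈ D) {g : G} (hg : ∀ n ∈ N, g * n * g⁻¹ * n ∈ K) :
    ∀ z ∈ Y, g • z + z ∈ D := fun z hz => by
  have t := cyc1 e hD hY l K k1 (fun x hx x0 u hu => gen hp iN h1 (PN hx) x0 u (PN hu)) v0 v1 hv
  obtain ⟨u, hu, rfl⟩ := e.hs z
  obtain ⟨w, hw, e1⟩ := e.hs (e.c g)
  obtain ⟨u', hu', e2⟩ := e.hs ((w⁻¹ * g) • e.c u)
  have h0 : e.c (w⁻¹ * g) = 0 := by rw [c_div, e1, sub_self, smul_zero]
  have h3 : w⁻¹ * g * u * (w⁻¹ * g)⁻¹ * u ∈ K := by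
    simpa [mul_assoc] using mul_mem (h1 _ (inv_mem (PN hw)) _ (hN.conj_mem u (PN hu) g))
      (hg u (PN hu))
  have e3 : g • e.c u = w • (w⁻¹ * g) • e.c u := by rw [mul_smul, smul_inv_smul]
  generalize w⁻¹ * g = h at *
  have h4 : u'⁻¹ * (h * u * h⁻¹) ∈ K := cop K hpN (e.hP (u'⁻¹ * (h * u * h⁻¹)) (by
    have := c_div e h 1
    rw [mul_one, c_one, h0, sub_self, smul_zero] at this
    rw [c_div, e.hc, e.hc, this, h0, e2, smul_zero, add_zero, zero_add, sub_self, smul_zero]) ▸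
      K.one_mem) (h2 _ (mul_mem (inv_mem (PN hu')) (hN.conj_mem u (PN hu) h)))
  have h5 : u' * u ∈ K := by
    simpa [mul_assoc] using mul_mem (inv_mem (hK.conj_mem _ h4 u')) h3
  have h6 := k1 _ (mul_mem hu' hu) (by
    rw [e.hc, e2]; exact Y.add_mem (hY _ _ hz) (hY _ _ hz)) h5
  rw [e.hc, e2] at h6
  convert D.add_mem (D.sub_mem h6 (t u' hu' _ hz)) (t w hw _ (hY h _ hz)) using 1
  rw [e3]; abel

include p2 in
theorem three [IsPretransitive G X] {K0 N0 : Subgroup G} {B : AddSubgroup C} (J : Lay e K0 B)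
    (hN0 : N0.Normal) (g1 : ∀ a ∈ N0, ∀ b ∈ N0, a * b * a⁻¹ * b⁻¹ ∈ K0)
    (g2 : ∀ a ∈ N0, a ^ p ∈ K0) (i0 : ∀ y : X, (DD K0 J.nor y).relIndex N0 = p)
    (nt : ¬∀ n ∈ N0, ∀ v, n • v - v ∈ B) (PK : ∀ u ∈ e.W, u ∈ K → u ∈ KK X N0 hN0)
    (sw : ∀ s t : X, ∃ g : G, (∀ n ∈ N, g * n * g⁻¹ * n ∈ K) ∧
      (((∃ l ∈ KK X N0 hN0, g • s = l • t) ∧ ∃ l ∈ KK X N0 hN0, g • t = l • s) ∨
      ((∃ l ∈ KK X N0 hN0, g • s = l • s) ∧ ∃ l ∈ KK X N0 hN0, g • t = l • t))) : False := by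
  have hK0 := J.nor
  have hL := KK_normal (X := X) N0 hN0
  let T : Subgroup G :=
    { carrier := {l | l ∈ KK X N0 hN0 ∧ ∀ n ∈ N0, Commute (n : G ⧸ K0) l}
      one_mem' := ⟨one_mem _, fun n _ => Commute.one_right _⟩
      mul_mem' := fun ha hb => ⟨mul_mem ha.1 hb.1, fun n hn => (ha.2 n hn).mul_right (hb.2 n hn)⟩
      inv_mem' := fun ha => ⟨inv_mem ha.1, fun n hn => (ha.2 n hn).inv_right⟩ }
  have hT : T.Normal := ⟨fun l hl g => ⟨hL.conj_mem l hl.1 g, fun n hn => by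
    simpa [mul_assoc] using (hl.2 _ (hN0.conj_mem' n hn g)).conj (g : G ⧸ K0)⟩⟩
  have t0 := fun l (hl : l ∈ T) => trl hK0 hN0 J.clo g1 g2 hl.1 fun n hn => (cz K0 _ _).2 (hl.2 n hn)
  have t1 : N0 ≤ T := fun n hn => ⟨mem_KK.2 fun y => ⟨n, hn, rfl⟩, fun m hm =>
    (cz K0 _ _).1 (by simpa using g1 _ (inv_mem hm) n hn)⟩
  have t2 : ∀ u ∈ e.W, u ∈ K → u ∈ T := fun u hu k => ⟨PK u hu k, fun n hn => (cz K0 _ _).1
    (J.clo _ fun y => pr2 (U := e.W ⊓ KK X N0 hN0) hp (i0 y) ((isP e he).to_le inf_le_left)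
      (fun a ha b hb => le_DD K0 hK0 y (g1 a ha b hb)) (fun u _ n hn => hN0.conj_mem n hn u)
      (fun u hu => norL hK0 hN0 g1 y hu.2) u ⟨hu, PK u hu k⟩ n hn)⟩
  obtain ⟨D, hD, BD, nD, v, v0, hv, mx⟩ := mxl (N := N0) e hp he hC J.sta nt
  let Y := fv D (T : Set G)
  have hY : ∀ (g : G) v, v ∈ Y → g • v ∈ Y := fv_sta hD fun t ht g => hT.conj_mem' t ht g
  have DY : D ≤ Y := le_fv hD _
  have vY : v ∈ Y := mem_fv.2 fun n hn => by
    obtain ⟨u, hu, -, -, e3⟩ := fp e hpN (fun a ha => (t0 a ha).1) hn hT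
    simpa [smul_sub, mul_smul] using D.add_mem (hD u _ (BD (J.tri _ e3 v))) (hv u hu)
  have LY := Ltri e hN0 (mx Y hY DY vY)
  have rad : ∀ l ∈ T, (∀ v, l • v - v ∈ D) → l ∈ K0 := fun l hl h => J.clo l fun y => by
    obtain ⟨n, hn, e1⟩ := mem_KK.1 hl.1 y
    refine e1 ▸ (pr1 (F := N0 ⊓ fx D hD (e.b y)) hp (i0 y) (fun m ⟨⟨k, hk, e2⟩, hm⟩ => ⟨hm, ?_⟩)
      inf_le_left).resolve_right (fun k => nD (all_b (d := e) hD hN0 y fun m hm => (k hm).2)) ⟨hn, ?_⟩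
    · show m • e.b y - e.b y ∈ D
      rw [← e.hb, e2, e.hb]
      exact BD (J.tri k hk _)
    · show n • e.b y - e.b y ∈ D
      rw [← e.hb, ← e1, e.hb]
      exact h _
  have two : ∀ (Z : AddSubgroup C) z, z + z ∈ Z → z ∈ Z := fun Z z h => by
    obtain ⟨k, hk⟩ := (hp.odd_of_ne_two p2).pow (n := a)
    have := hC z
    rw [hk, add_nsmul, mul_nsmul, two_nsmul, one_nsmul, add_eq_zero_iff_neg_eq] at this
    exact this ▸ Z.neg_mem (Z.nsmul_mem h k)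
  have cj : ∀ l ∈ T, ∀ g, e.c (g * l * g⁻¹) - g • e.c l ∈ Y := fun l hl g => by
    have h2 := e.hc (g * l * g⁻¹) g
    rw [inv_mul_cancel_right, e.hc] at h2
    convert Y.neg_mem (LY _ (hL.conj_mem l hl.1 g) (e.c g)) using 1
    rw [eq_sub_of_add_eq h2.symm]; abel
  have cov : ∀ v, ∃ l ∈ T, v - e.c l ∈ Y := by
    let E : AddSubgroup C :=
      { carrier := {v | ∃ l ∈ T, v - e.c l ∈ Y}
        zero_mem' := ⟨1, one_mem _, by simp [c_one]⟩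
        add_mem' := by
          rintro v v' ⟨k, hk, a1⟩ ⟨k', hk', a2⟩
          refine ⟨k * k', mul_mem hk hk', ?_⟩
          convert Y.sub_mem (Y.add_mem a1 a2) (LY k hk.1 (e.c k')) using 1
          rw [e.hc]; abel
        neg_mem' := by
          rintro v ⟨k, hk, a1⟩
          refine ⟨k⁻¹ * 1, mul_mem (inv_mem hk) (one_mem _), ?_⟩
          convert Y.sub_mem (LY _ (inv_mem hk.1) (e.c k)) a1 using 1
          rw [c_div, c_one, zero_sub, smul_neg]; abel }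
    have hE : ∀ (g : G) v, v ∈ E → g • v ∈ E := fun g v ⟨k, hk, a1⟩ => ⟨_, hT.conj_mem k hk g, by
      convert Y.sub_mem (hY g _ a1) (cj k hk g) using 1
      rw [smul_sub]; abel⟩
    have YE : Y ≤ E := fun v h => ⟨1, one_mem _, by simpa [c_one] using h⟩
    by_contra h
    have : Finite C := Finite.of_surjective e.c fun v => let ⟨w, _, h⟩ := e.hs v; ⟨w, h⟩
    have E0 : E ≠ ⊤ := fun k => h fun v => (k ▸ trivial : v ∈ E)
    obtain ⟨z, z0, hz⟩ := fixq hp hC e.W (isP e he) hE E0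
    refine E0 (eq_top_iff.2 (e.hg ▸ (AddSubgroup.closure_le _).2 ?_))
    rintro _ ⟨s, rfl⟩
    obtain ⟨g, hg, k⟩ := sw s s
    obtain ⟨l, hl, e1⟩ : ∃ l ∈ KK X N0 hN0, g • s = l • s := k.elim And.left And.left
    have := neg e hp hpN hK hN h1 h2 iN PN hE (Y := ⊤) (fun _ _ _ => trivial) le_top
      (fun u hu _ k => ⟨u, t2 u hu k, by simp⟩) z0 trivial hz hg (e.b s) trivial
    rw [← e.hb, e1, e.hb] at this
    exact two E _ (by simpa using E.sub_mem this (YE (LY l hl (e.b s))))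
  let Q : G → C → C ⧸ D := fun l v => (l • v - v : C)
  have qe : ∀ x y : C, x - y ∈ D → (x : C ⧸ D) = y := fun x y h => QuotientAddGroup.eq_iff_sub_mem.2 h
  have Q1 : ∀ l ∈ T, ∀ x y, x - y ∈ Y → Q l x = Q l y := fun l hl x y h => qe _ _ (by
    convert mem_fv.1 h l hl using 1
    rw [smul_sub]; abel)
  have Q2 : ∀ l ∈ T, ∀ l' ∈ T, Q l (e.c l') = Q l' (e.c l) := fun l hl l' hl' => qe _ _ (by
    have k1 := (t0 l hl).2 l' hl'.1 fun n hn => (cz K0 _ _).2 (hl'.2 n hn)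
    have k2 : e.c (l * l') = e.c (l * l' * l⁻¹ * l'⁻¹ * (l' * l)) := by congr 1; group
    rw [e.hc l l', e.hc _ (l' * l)] at k2
    convert BD (B.add_mem (cK J k1) (J.tri _ k1 (e.c (l' * l)))) using 1
    rw [← add_sub_assoc, ← k2, e.hc]; abel)
  have k1 : ∀ l ∈ T, e.c l ∈ Y → l ∈ K0 := fun l hl h => rad l hl fun v => by
    obtain ⟨l', hl', a1⟩ := cov v
    exact (QuotientAddGroup.eq_zero_iff _).1 (((Q1 l hl _ _ a1).trans (Q2 l hl l' hl')).trans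
      ((QuotientAddGroup.eq_zero_iff _).2 (mem_fv.1 h l' hl')))
  choose f f1 f2 using fun s => cov (e.b s)
  refine nD fun n hn z => mem_fv.1 (show z ∈ Y from ?_) n (t1 hn)
  suffices h : Y = ⊤ from h ▸ trivial
  refine eq_top_iff.2 (e.hg ▸ (AddSubgroup.closure_le _).2 ?_)
  rintro _ ⟨s, rfl⟩
  have := rad _ (f1 s) (ext_b e D _ fun t => ?_)
  · simpa using Y.add_mem (f2 s) (DY (BD (cK J this)))
  obtain ⟨g, hg, k⟩ := sw s t
  have a1 := neg e hp hpN hK hN h1 h2 iN PN hD hY DY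
    (fun u hu h k => BD (cK J (k1 u (t2 u hu k) h))) v0 vY hv hg _ (LY _ (f1 s).1 (e.b t))
  have a2 : ∀ x y : X, (∃ l ∈ KK X N0 hN0, g • x = l • y) → g • e.b x - e.c (f y) ∈ Y := by
    rintro x y ⟨l, hl, e1⟩
    rw [← e.hb, e1, e.hb]
    simpa using Y.add_mem (LY l hl (e.b y)) (f2 y)
  have a3 := hT.conj_mem _ (f1 s) g
  have a4 : ∀ y : X, (∃ l ∈ KK X N0 hN0, g • s = l • y) → e.c (g * f s * g⁻¹) - e.c (f y) ∈ Y :=
    fun y h => by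
      convert Y.add_mem (Y.sub_mem (cj _ (f1 s) g) (hY g _ (f2 s))) (a2 s y h) using 1
      rw [smul_sub]; abel
  have a5 : Q (g * f s * g⁻¹) (g • e.b t) = Q (f s) (e.b t) := by
    rw [Q1 _ (f1 s) _ _ (f2 t)]
    rcases k with ⟨k, k'⟩ | ⟨k, k'⟩
    · rw [Q1 _ a3 _ _ (a2 t s k'), Q2 _ a3 _ (f1 s), Q1 _ (f1 s) _ _ (a4 t k)]
    · rw [Q1 _ a3 _ _ (a2 t t k'), Q2 _ a3 _ (f1 t), Q1 _ (f1 t) _ _ (a4 s k), Q2 _ (f1 t) _ (f1 s)]
  refine two D _ ?_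
  convert D.sub_mem a1 (QuotientAddGroup.eq_iff_sub_mem.1 a5) using 1
  simp only [smul_sub, mul_smul, inv_smul_smul]
  abel

end Pool.Agent.P.MP_6d14ae_al.V
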